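import Pool.Agent.Helper60.HC.Core

/-!
# From degeneracy to an ordering; fractional colourings from random independent sets
-/

set_option autoImplicit false

namespace Pool.Agent.Helper60.HC

open Finset

/-- An ordering of the vertices from a degeneracy condition. -/
theorem exists_order {V : Type*} [DecidableEq V] (Q : V → Finset V → Prop)
    (hQ : ∀ S : Finset V, S.Nonempty → ∃ v ∈ S, Q v S) :
    ∀ (n : ℕ) (S : Finset V), S.card = n → ∃ ord : V → ℕ, Set.InjOn ord (S : Set V) ∧
      (∀ v ∈ S, ord v < n) ∧ ∀ u ∈ S, Q u (S.filter fun v => ord v ≤ ord u) := by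
  intro n
  induction n with
  | zero =>
    intro S hS
    rw [Finset.card_eq_zero] at hS
    subst hS
    exact ⟨fun _ => 0, by simp, by simp, by simp⟩
  | succ n ih =>
    intro S hS
    have hne : S.Nonempty := by
      rw [← Finset.card_pos]
      omega
    obtain ⟨v, hv, hQv⟩ := hQ S hne
    obtain ⟨ord, h1, h2, h3⟩ := ih (S.erase v) (by rw [Finset.card_erase_of_mem hv]; omega)
    refine ⟨Function.update ord v n, ?_, ?_, ?_⟩
    · intro a ha b hb hab
      by_cases hav : a = v
      · by_cases hbv : b = v
        · rw [hav, hbv]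
        · exfalso
          rw [hav, Function.update_self, Function.update_of_ne hbv] at hab
          have := h2 b (Finset.mem_erase.2 ⟨hbv, hb⟩)
          omega
      · by_cases hbv : b = v
        · exfalso
          rw [hbv, Function.update_self, Function.update_of_ne hav] at hab
          have := h2 a (Finset.mem_erase.2 ⟨hav, ha⟩)
          omega
        · rw [Function.update_of_ne hav, Function.update_of_ne hbv] at hab
          exact h1 (Finset.mem_coe.2 (Finset.mem_erase.2 ⟨hav, ha⟩))
            (Finset.mem_coe.2 (Finset.mem_erase.2 ⟨hbv, hb⟩)) hab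
    · intro a ha
      by_cases hav : a = v
      · rw [hav, Function.update_self]
        exact Nat.lt_succ_self n
      · rw [Function.update_of_ne hav]
        exact Nat.lt_succ_of_lt (h2 a (Finset.mem_erase.2 ⟨hav, ha⟩))
    · intro u hu
      by_cases huv : u = v
      · have e : (S.filter fun w => Function.update ord v n w ≤ Function.update ord v n u) = S := by
          refine Finset.filter_true_of_mem fun w hw => ?_
          rw [huv, Function.update_self]
          by_cases hwv : w = v
          · rw [hwv, Function.update_self]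
          · rw [Function.update_of_ne hwv]
            exact (h2 w (Finset.mem_erase.2 ⟨hwv, hw⟩)).le
        rw [e, huv]
        exact hQv
      · have hue : u ∈ S.erase v := Finset.mem_erase.2 ⟨huv, hu⟩
        have e : (S.filter fun w => Function.update ord v n w ≤ Function.update ord v n u) =
            ((S.erase v).filter fun w => ord w ≤ ord u) := by
          ext w
          rw [Finset.mem_filter, Finset.mem_filter, Finset.mem_erase, Function.update_of_ne huv]
          by_cases hwv : w = v
          · have := h2 u hue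
            rw [hwv, Function.update_self]
            constructor
            · rintro ⟨_, h⟩
              omega
            · rintro ⟨⟨h, _⟩, _⟩
              exact absurd rfl h
          · rw [Function.update_of_ne hwv]
            tauto
        rw [e]
        exact h3 u hue

open Classical in
/-- Fractional colourings. The sums over the earlier neighbours are bounded. -/
theorem exists_weights {V : Type} [Fintype V] (G : SimpleGraph V) (ord : V → ℕ)
    (hinj : Function.Injective ord) (hn : ∀ v, ord v < Fintype.card V) (κ q lam : ℝ) (hκ : 0 < κ)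
    (hκ1 : κ < 1) (hq : 0 < q) (hqκ : q < κ) (hlam0 : 0 ≤ lam) (hlam : lam < 1)
    (hsum : ∀ u : V, ∑ v ∈ univ.filter (fun v => G.Adj u v ∧ ord v < ord u),
      min κ (q * ((1 - κ)⁻¹) ^
        (univ.filter (fun w => G.Adj u w ∧ G.Adj v w ∧ ord w < ord v)).card)
      ≤ lam * ((1 - κ) * Real.log (κ / q))) :
    ∃ w : Finset V → ℝ, (∀ I, 0 ≤ w I) ∧
        (∀ I, w I ≠ 0 → G.IsIndepSet (I : Set V)) ∧
        (∀ v : V, 1 ≤ ∑ I ∈ Finset.univ.filter (fun I : Finset V => v ∈ I), w I) ∧
        ∑ I, w I ≤ ((1 - lam) * q)⁻¹ := by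
  set n : ℕ := Fintype.card V with hndef
  set N : ℕ → Finset ℕ := fun i =>
    (univ.filter (fun v : V => ∃ u : V, ord u = i ∧ G.Adj u v ∧ ord v < ord u)).image ord with hN
  have hNmem : ∀ (i j : ℕ), j ∈ N i ↔ ∃ u v : V, ord u = i ∧ ord v = j ∧ G.Adj u v ∧
      ord v < ord u := by
    intro i j
    rw [hN]
    simp only [Finset.mem_image, Finset.mem_filter, Finset.mem_univ, true_and]
    constructor
    · rintro ⟨v, ⟨u, hu, hadj, hlt⟩, hv⟩
      exact ⟨u, v, hu, hv, hadj, hlt⟩
    · rintro ⟨u, v, hu, hv, hadj, hlt⟩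
      exact ⟨v, ⟨u, hu, hadj, hlt⟩, hv⟩
  have hNlt : ∀ i, ∀ j ∈ N i, j < i := by
    intro i j hj
    obtain ⟨u, v, hu, hv, _, hlt⟩ := (hNmem i j).1 hj
    omega
  have hNord : ∀ u : V, N (ord u) =
      (univ.filter (fun v => G.Adj u v ∧ ord v < ord u)).image ord := by
    intro u
    ext j
    rw [hNmem]
    simp only [Finset.mem_image, Finset.mem_filter, Finset.mem_univ, true_and]
    constructor
    · rintro ⟨u', v, hu, hv, hadj, hlt⟩
      have := hinj hu
      subst this
      exact ⟨v, ⟨hadj, hlt⟩, hv⟩
    · rintro ⟨v, ⟨hadj, hlt⟩, hv⟩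
      exact ⟨u, v, rfl, hv, hadj, hlt⟩
  have hNint : ∀ u v : V, ord v < ord u → (N (ord u) ∩ N (ord v)).card =
      (univ.filter (fun w => G.Adj u w ∧ G.Adj v w ∧ ord w < ord v)).card := by
    intro u v huv
    rw [hNord, hNord, ← Finset.image_inter _ _ hinj, Finset.card_image_of_injective _ hinj]
    congr 1
    ext w
    simp only [Finset.mem_inter, Finset.mem_filter, Finset.mem_univ, true_and]
    constructor
    · rintro ⟨⟨h1, _⟩, h2, h3⟩
      exact ⟨h1, h2, h3⟩
    · rintro ⟨h1, h2, h3⟩
      exact ⟨⟨h1, h3.trans huv⟩, h2, h3⟩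
  have hq0 : ∀ i, N i ≠ ∅ → ∃ u, ord u = i := by
    intro i hi
    obtain ⟨j, hj⟩ := Finset.nonempty_iff_ne_empty.2 hi
    obtain ⟨u, v, hu, _⟩ := (hNmem i j).1 hj
    exact ⟨u, hu⟩
  have hL : 0 < Real.log (κ / q) := Real.log_pos ((one_lt_div hq).2 hqκ)
  -- the bound of the sums, for every index
  have hsum' : ∀ i < n, ∑ v ∈ N i, min κ (q * ((1 - κ)⁻¹) ^ (N i ∩ N v).card)
      ≤ lam * ((1 - κ) * Real.log (κ / q)) := by
    intro i _
    have hD : 0 < (1 - κ) * Real.log (κ / q) := mul_pos (by linarith) hL
    by_cases hi : N i = ∅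
    · rw [hi, Finset.sum_empty]
      exact mul_nonneg hlam0 hD.le
    · obtain ⟨u, rfl⟩ := hq0 i hi
      refine le_trans (le_of_eq ?_) (hsum u)
      rw [Finset.sum_congr (hNord u) fun _ _ => rfl, Finset.sum_image fun a _ b _ h => hinj h]
      refine Finset.sum_congr rfl fun v hv => ?_
      rw [hNint u v (Finset.mem_filter.1 hv).2.2]
  obtain ⟨μ, hμ0, hμ1, hμ2, hμ3⟩ := exists_distribution (N := N) (p := fun _ => q) n hκ hκ1
    (fun _ => hq.le) hNlt lam (fun _ _ => hq) (fun _ _ => hqκ) hsum'
  -- the image of the ordering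
  have himg : (univ : Finset V).image ord = range n := by
    refine Finset.eq_of_subset_of_card_le ?_ ?_
    · intro i hi
      obtain ⟨v, _, rfl⟩ := Finset.mem_image.1 hi
      exact Finset.mem_range.2 (hn v)
    · rw [Finset.card_image_of_injective _ hinj, Finset.card_range, Finset.card_univ]
  have hback : ∀ J ∈ (range n).powerset, (univ.filter fun v => ord v ∈ J).image ord = J := by
    intro J hJ
    rw [Finset.mem_powerset] at hJ
    ext i
    simp only [Finset.mem_image, Finset.mem_filter, Finset.mem_univ, true_and]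
    constructor
    · rintro ⟨v, hv, rfl⟩
      exact hv
    · intro hi
      have h1 := hJ hi
      rw [← himg] at h1
      obtain ⟨v, _, rfl⟩ := Finset.mem_image.1 h1
      exact ⟨v, hi, rfl⟩
  have hforth : ∀ I : Finset V, (univ.filter fun v => ord v ∈ I.image ord) = I := by
    intro I
    ext v
    simp only [Finset.mem_image, Finset.mem_filter, Finset.mem_univ, true_and]
    constructor
    · rintro ⟨w, hw, h⟩
      rwa [hinj h] at hw
    · exact fun hv => ⟨v, hv, rfl⟩
  have hIm : ∀ I : Finset V, I.image ord ∈ (range n).powerset := by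
    intro I
    rw [Finset.mem_powerset, ← himg]
    exact Finset.image_subset_image (Finset.subset_univ I)
  have hS1 : ∑ I : Finset V, μ (I.image ord) = 1 := by
    rw [← hμ2]
    refine Finset.sum_nbij' (fun I => I.image ord) (fun J => univ.filter fun v => ord v ∈ J)
      (fun I _ => hIm I) (fun J _ => Finset.mem_univ _) (fun I _ => hforth I) hback
      (fun I _ => rfl)
  have hS2 : ∀ v : V, (1 - lam) * q ≤
      ∑ I ∈ Finset.univ.filter (fun I : Finset V => v ∈ I), μ (I.image ord) := by
    intro v
    refine (hμ3 (ord v) (hn v)).trans (le_of_eq ?_)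
    symm
    refine Finset.sum_nbij' (fun I => I.image ord) (fun J => univ.filter fun v => ord v ∈ J)
      ?_ ?_ (fun I _ => hforth I) (fun J hJ => hback J (Finset.mem_filter.1 hJ).1)
      (fun I _ => rfl)
    · intro I hI
      exact Finset.mem_filter.2 ⟨hIm I, Finset.mem_image_of_mem ord (Finset.mem_filter.1 hI).2⟩
    · intro J hJ
      refine Finset.mem_filter.2 ⟨Finset.mem_univ _, Finset.mem_filter.2 ⟨Finset.mem_univ _, ?_⟩⟩
      exact (Finset.mem_filter.1 hJ).2
  have hc : 0 < (1 - lam) * q := mul_pos (by linarith) hq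
  refine ⟨fun I => μ (I.image ord) * ((1 - lam) * q)⁻¹, ?_, ?_, ?_, ?_⟩
  · intro I
    exact mul_nonneg (hμ0 _) (inv_nonneg.2 hc.le)
  · intro I hI
    have h1 : μ (I.image ord) ≠ 0 := fun h => hI (by beta_reduce; rw [h, zero_mul])
    have h2 := (hμ1 _ h1).2
    intro a ha b hb hab hadj
    rcases lt_trichotomy (ord a) (ord b) with h | h | h
    · exact h2 (ord b) (Finset.mem_image_of_mem ord (Finset.mem_coe.1 hb)) (ord a)
        ((hNmem _ _).2 ⟨b, a, rfl, rfl, hadj.symm, h⟩)
        (Finset.mem_image_of_mem ord (Finset.mem_coe.1 ha))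
    · exact hab (hinj h)
    · exact h2 (ord a) (Finset.mem_image_of_mem ord (Finset.mem_coe.1 ha)) (ord b)
        ((hNmem _ _).2 ⟨a, b, rfl, rfl, hadj, h⟩)
        (Finset.mem_image_of_mem ord (Finset.mem_coe.1 hb))
  · intro v
    rw [← Finset.sum_mul, ← div_eq_mul_inv, one_le_div hc]
    exact hS2 v
  · rw [← Finset.sum_mul, hS1, one_mul]

end Pool.Agent.Helper60.HC
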