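import Pool.Agent.Helper60.HC.Order

/-!
# Fractional chromatic number of degenerate graphs with few triangles
-/

set_option autoImplicit false

namespace Pool.Agent.Helper60.HC

open Finset

/-- One term of the sum. -/
theorem term_bound (κ q δ k : ℝ) (hκ : 0 < κ) (hκ1 : κ < 1) (hq : 0 < q) (hδ1 : δ < 1)
    (hk : 0 < k) (hκk : κ * k ≤ δ) (t : ℕ) :
    min κ (q * ((1 - κ)⁻¹) ^ t) ≤ q / (1 - δ) + κ / k * t := by
  have hδ' : 0 < 1 - δ := by linarith
  have ht0 : (0 : ℝ) ≤ t := Nat.cast_nonneg t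
  by_cases h : (t : ℝ) ≤ k
  · refine (min_le_right _ _).trans ?_
    have h1 : 1 - κ * t ≤ (1 - κ) ^ t := by
      have h2 := one_add_mul_le_pow (a := -κ) (by linarith) t
      have h3 : (1 : ℝ) + -κ = 1 - κ := by ring
      rw [h3] at h2
      linarith
    have h2 : κ * t ≤ δ := (mul_le_mul_of_nonneg_left h hκ.le).trans hκk
    have h3 : 1 - δ ≤ (1 - κ) ^ t := by linarith
    have h4 : ((1 - κ)⁻¹) ^ t ≤ (1 - δ)⁻¹ := by
      rw [inv_pow]
      exact inv_anti₀ hδ' h3
    have h5 : q * ((1 - κ)⁻¹) ^ t ≤ q / (1 - δ) := by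
      rw [div_eq_mul_inv]
      exact mul_le_mul_of_nonneg_left h4 hq.le
    have h6 : 0 ≤ κ / k * t := mul_nonneg (div_pos hκ hk).le ht0
    linarith
  · push Not at h
    refine (min_le_left _ _).trans ?_
    have h1 : κ ≤ κ / k * t := by
      rw [div_mul_eq_mul_div, le_div_iff₀ hk]
      exact mul_le_mul_of_nonneg_left h.le hκ.le
    have h2 : 0 ≤ q / (1 - δ) := (div_pos hq hδ').le
    linarith

open Classical in
/-- The number of edges in a set of earlier neighbours. -/
theorem sum_card_le {V : Type} [Fintype V] (G : SimpleGraph V) (ord : V → ℕ) (u : V) :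
    ∑ v ∈ univ.filter (fun v => G.Adj u v ∧ ord v < ord u),
      (univ.filter (fun w => G.Adj u w ∧ G.Adj v w ∧ ord w < ord v)).card
    ≤ (G.edgeFinset.filter (fun e => ∀ x ∈ e, x ∈ univ.filter (fun v => ord v ≤ ord u) ∧
        G.Adj u x)).card := by
  rw [← Finset.card_sigma]
  refine Finset.card_le_card_of_injOn (fun x => s(x.1, x.2)) ?_ ?_
  · rintro ⟨v, w⟩ hx
    simp only [Finset.coe_sigma, Set.mem_sigma_iff, Finset.coe_filter, Finset.mem_univ,
      true_and, Set.mem_ofPred_eq] at hx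
    obtain ⟨⟨h1, h2⟩, h3, h4, h5⟩ := hx
    simp only [Finset.coe_filter, Set.mem_ofPred_eq, SimpleGraph.mem_edgeFinset,
      SimpleGraph.mem_edgeSet, Sym2.mem_iff, Finset.mem_filter, Finset.mem_univ, true_and]
    refine ⟨h4, ?_⟩
    rintro x (rfl | rfl)
    · exact ⟨h2.le, h1⟩
    · exact ⟨(h5.trans h2).le, h3⟩
  · rintro ⟨v, w⟩ hx ⟨v', w'⟩ hx' h
    simp only [Finset.coe_sigma, Set.mem_sigma_iff, Finset.coe_filter, Finset.mem_univ,
      true_and, Set.mem_ofPred_eq] at hx hx'
    simp only [Sym2.eq_iff] at h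
    rcases h with ⟨h1, h2⟩ | ⟨h1, h2⟩
    · subst h1 h2
      rfl
    · exfalso
      subst h1 h2
      have h3 := hx.2.2.2
      have h4 := hx'.2.2.2
      omega

/-- The inequality between the parameters. -/
theorem param (δ : ℝ) (hδ : 0 < δ) (hδ1 : δ ≤ 1 / 16) : ∃ y₀ : ℝ, 1 ≤ y₀ ∧ ∀ y : ℝ, y₀ ≤ y →
    (1 - 4 * δ) / 4 * y / (1 - δ) + δ ≤
      1 / 2 * ((1 - 2 * δ) * (y / 2 - Real.log y + Real.log δ)) := by
  have h := Real.isLittleO_log_id_atTop.def (c := δ / 8) (by linarith)
  obtain ⟨y₁, hy₁⟩ := Filter.eventually_atTop.1 h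
  refine ⟨max (max 1 y₁) ((δ + 1 / 2 * -Real.log δ) / (3 * δ / 16)), ?_, ?_⟩
  · exact (le_max_left 1 y₁).trans (le_max_left _ _)
  intro y hy
  have hy1 : 1 ≤ y := ((le_max_left 1 y₁).trans (le_max_left _ _)).trans hy
  have hy2 : y₁ ≤ y := ((le_max_right 1 y₁).trans (le_max_left _ _)).trans hy
  have hy3 : (δ + 1 / 2 * -Real.log δ) / (3 * δ / 16) ≤ y := (le_max_right _ _).trans hy
  have h1 := hy₁ y hy2
  have hlog0 : 0 ≤ Real.log y := Real.log_nonneg hy1
  rw [Real.norm_of_nonneg hlog0, id, Real.norm_of_nonneg (by linarith)] at h1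
  rw [div_le_iff₀ (by linarith)] at hy3
  have hδ' : 0 < 1 - δ := by linarith
  have hlogδ : Real.log δ ≤ 0 := Real.log_nonpos hδ.le (by linarith)
  have h2 : (1 - 4 * δ) / 4 * y / (1 - δ) ≤ (1 - 2 * δ) / 4 * y - δ / 4 * y := by
    rw [div_le_iff₀ hδ']
    have h3 : (1 - 4 * δ) ≤ (1 - 3 * δ) * (1 - δ) := by nlinarith
    nlinarith
  nlinarith

open Classical in
/-- Degenerate graphs with few edges in the sets of earlier neighbours. -/
theorem few_triangles (ε : ℝ) (hε : 0 < ε) : ∃ K : ℝ, 0 < K ∧ ∀ (d : ℕ) (f : ℝ), 1 ≤ d → 1 < f →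
    f ≤ (d : ℝ) ^ 2 + 1 → ∀ (V : Type) [Fintype V] (G : SimpleGraph V),
    (∀ S : Finset V, S.Nonempty → ∃ v ∈ S, (S.filter (fun u => G.Adj v u)).card ≤ d ∧
      ((G.edgeFinset.filter (fun e => ∀ x ∈ e, x ∈ S ∧ G.Adj v x)).card : ℝ)
        ≤ (d : ℝ) ^ 2 / f) →
    ∃ w : Finset V → ℝ, (∀ I, 0 ≤ w I) ∧
      (∀ I, w I ≠ 0 → G.IsIndepSet (I : Set V)) ∧
      (∀ v : V, 1 ≤ ∑ I ∈ Finset.univ.filter (fun I : Finset V => v ∈ I), w I) ∧
      ∑ I, w I ≤ (8 + ε + K / Real.log f) * d / Real.log f := by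
  set δ : ℝ := min (1 / 16) (ε / 64) with hδdef
  have hδ : 0 < δ := lt_min (by norm_num) (by linarith)
  have hδ1 : δ ≤ 1 / 16 := min_le_left _ _
  have hδ2 : δ ≤ ε / 64 := min_le_right _ _
  obtain ⟨y₀, hy₀, hpar⟩ := param δ hδ hδ1
  refine ⟨24 * y₀ ^ 2, by positivity, ?_⟩
  intro d f hd hf hfd V _ G hG
  obtain ⟨ord, hord1, hord2, hord3⟩ := exists_order
    (fun v S => (S.filter (fun u => G.Adj v u)).card ≤ d ∧
      ((G.edgeFinset.filter (fun e => ∀ x ∈ e, x ∈ S ∧ G.Adj v x)).card : ℝ)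
        ≤ (d : ℝ) ^ 2 / f) hG (Fintype.card V) univ Finset.card_univ
  have hinj : Function.Injective ord := by
    intro a b hab
    exact hord1 (Finset.mem_coe.2 (Finset.mem_univ a)) (Finset.mem_coe.2 (Finset.mem_univ b)) hab
  have hn : ∀ v, ord v < Fintype.card V := fun v => hord2 v (Finset.mem_univ v)
  have hd0 : (1 : ℝ) ≤ d := by exact_mod_cast hd
  have hcard : ∀ u : V, ((univ.filter (fun v => G.Adj u v ∧ ord v < ord u)).card : ℝ) ≤ d := by
    intro u
    have h := (hord3 u (Finset.mem_univ u)).1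
    rw [Finset.filter_filter] at h
    have h2 : (univ.filter (fun v => G.Adj u v ∧ ord v < ord u)).card ≤ d := by
      refine le_trans (Finset.card_le_card ?_) h
      intro v hv
      simp only [Finset.mem_filter, Finset.mem_univ, true_and] at hv ⊢
      exact ⟨hv.2.le, hv.1⟩
    exact_mod_cast h2
  have hedge : ∀ u : V, ∑ v ∈ univ.filter (fun v => G.Adj u v ∧ ord v < ord u),
      ((univ.filter (fun w => G.Adj u w ∧ G.Adj v w ∧ ord w < ord v)).card : ℝ)
        ≤ (d : ℝ) ^ 2 / f := by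
    intro u
    have h := (hord3 u (Finset.mem_univ u)).2
    have h2 := sum_card_le G ord u
    have h3 : ((∑ v ∈ univ.filter (fun v => G.Adj u v ∧ ord v < ord u),
      (univ.filter (fun w => G.Adj u w ∧ G.Adj v w ∧ ord w < ord v)).card : ℕ) : ℝ) ≤
        ((G.edgeFinset.filter (fun e => ∀ x ∈ e, x ∈ univ.filter (fun v => ord v ≤ ord u) ∧
        G.Adj u x)).card : ℝ) := by exact_mod_cast h2
    rw [Nat.cast_sum] at h3
    exact h3.trans h
  set y : ℝ := Real.log f with hy
  have hy0 : 0 < y := Real.log_pos hf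
  have hf0 : 0 < f := by linarith
  rcases lt_or_ge y y₀ with hlt | hge
  · -- small values of `f`
    have hκ0 : (0 : ℝ) < 1 / (4 * d) := by positivity
    have hκ1 : (1 : ℝ) / (4 * d) ≤ 1 / 4 := by
      rw [div_le_div_iff₀ (by positivity) (by norm_num)]
      linarith
    have he : (1 : ℝ) < Real.exp 1 := by
      have := Real.add_one_le_exp (1 : ℝ)
      linarith
    have hq0 : 0 < 1 / (4 * (d : ℝ)) / Real.exp 1 := div_pos hκ0 (Real.exp_pos 1)
    have hlog : Real.log (1 / (4 * (d : ℝ)) / (1 / (4 * (d : ℝ)) / Real.exp 1)) = 1 := by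
      rw [div_div_cancel₀ hκ0.ne', Real.log_exp]
    obtain ⟨w, h1, h2, h3, h4⟩ := exists_weights G ord hinj hn (1 / (4 * d))
      (1 / (4 * (d : ℝ)) / Real.exp 1) (1 / 2) hκ0 (by linarith) hq0
      (div_lt_self hκ0 he) (by norm_num) (by norm_num) (by
        intro u
        rw [hlog]
        calc _ ≤ ∑ v ∈ univ.filter (fun v => G.Adj u v ∧ ord v < ord u), (1 / (4 * (d : ℝ))) :=
              Finset.sum_le_sum fun v _ => min_le_left _ _
          _ = ((univ.filter (fun v => G.Adj u v ∧ ord v < ord u)).card : ℝ) *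
              (1 / (4 * (d : ℝ))) := by rw [Finset.sum_const, nsmul_eq_mul]
          _ ≤ d * (1 / (4 * (d : ℝ))) := mul_le_mul_of_nonneg_right (hcard u) hκ0.le
          _ = 1 / 4 := by field_simp
          _ ≤ 1 / 2 * ((1 - 1 / (4 * (d : ℝ))) * 1) := by linarith)
    refine ⟨w, h1, h2, h3, h4.trans ?_⟩
    have e : ((1 - 1 / 2) * (1 / (4 * (d : ℝ)) / Real.exp 1))⁻¹ = 8 * d * Real.exp 1 := by
      have := Real.exp_pos 1
      field_simp
      ring
    rw [e]
    have he3 : Real.exp 1 ≤ 3 := by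
      have := Real.exp_one_lt_d9
      linarith
    have h5 : 8 * d * Real.exp 1 ≤ 24 * d := by nlinarith
    refine h5.trans ?_
    rw [le_div_iff₀ hy0]
    have h6 : 24 * y ≤ 24 * y₀ ^ 2 / y := by
      rw [le_div_iff₀ hy0]
      nlinarith
    have h7 : 24 * d * y ≤ (24 * y₀ ^ 2 / y) * d := by nlinarith
    nlinarith
  · -- large values of `f`
    have hpar' := hpar y hge
    have hy1 : 1 ≤ y := hy₀.trans hge
    set c : ℝ := (1 - 4 * δ) / 4 with hc
    have hc0 : 0 < c := by
      rw [hc]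
      linarith
    have hc1 : c ≤ 1 := by
      rw [hc]
      linarith
    have hsf : 0 < Real.sqrt f := Real.sqrt_pos.2 hf0
    have hsq : Real.sqrt f * Real.sqrt f = f := Real.mul_self_sqrt hf0.le
    have hsd : Real.sqrt f ≤ 2 * d := by
      rw [Real.sqrt_le_left (by linarith)]
      nlinarith
    set κ : ℝ := δ * Real.sqrt f / d with hκdef
    set q : ℝ := c * y / d with hqdef
    set k : ℝ := d / Real.sqrt f with hkdef
    have hdpos : (0 : ℝ) < d := by linarith
    have hκ0 : 0 < κ := div_pos (mul_pos hδ hsf) hdpos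
    have hκ2 : κ ≤ 2 * δ := by
      rw [hκdef, div_le_iff₀ hdpos]
      nlinarith
    have hκ1 : κ < 1 := by linarith
    have hq0 : 0 < q := div_pos (mul_pos hc0 hy0) hdpos
    have hk0 : 0 < k := div_pos hdpos hsf
    have hκk : κ * k = δ := by
      rw [hκdef, hkdef]
      field_simp
    have hκk2 : κ / k = δ * f / d ^ 2 := by
      have e : δ * Real.sqrt f / d / (d / Real.sqrt f) =
          δ * (Real.sqrt f * Real.sqrt f) / d ^ 2 := by
        field_simp
      rw [hκdef, hkdef, e, hsq]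
    have hlogq : y / 2 - Real.log y + Real.log δ ≤ Real.log (κ / q) := by
      have e : κ / q = δ * Real.sqrt f / (c * y) := by
        rw [hκdef, hqdef]
        field_simp
      rw [e, Real.log_div (mul_pos hδ hsf).ne' (mul_pos hc0 hy0).ne',
        Real.log_mul hδ.ne' hsf.ne', Real.log_mul hc0.ne' hy0.ne', Real.log_sqrt hf0.le]
      have := Real.log_nonpos hc0.le hc1
      linarith
    have hposL : 0 < y / 2 - Real.log y + Real.log δ := by
      by_contra hneg
      push Not at hneg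
      have h1 : 0 ≤ c * y / (1 - δ) := by
        have : 0 < 1 - δ := by linarith
        positivity
      have h2 : 1 / 2 * ((1 - 2 * δ) * (y / 2 - Real.log y + Real.log δ)) ≤ 0 := by
        have : 0 ≤ 1 - 2 * δ := by linarith
        nlinarith [mul_nonneg this (neg_nonneg.2 hneg)]
      linarith
    have hqκ : q < κ := by
      have h1 : 0 < Real.log (κ / q) := lt_of_lt_of_le hposL hlogq
      have h2 : 1 < κ / q := (Real.log_pos_iff (div_pos hκ0 hq0).le).1 h1
      exact (one_lt_div hq0).1 h2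
    obtain ⟨w, h1, h2, h3, h4⟩ := exists_weights G ord hinj hn κ q (1 / 2) hκ0 hκ1 hq0 hqκ
      (by norm_num) (by norm_num) (by
        intro u
        calc _ ≤ ∑ v ∈ univ.filter (fun v => G.Adj u v ∧ ord v < ord u), (q / (1 - δ) + κ / k *
                ((univ.filter (fun w => G.Adj u w ∧ G.Adj v w ∧ ord w < ord v)).card : ℝ)) :=
              Finset.sum_le_sum fun v _ => term_bound κ q δ k hκ0 hκ1 hq0 (by linarith) hk0
                hκk.le _
          _ = ((univ.filter (fun v => G.Adj u v ∧ ord v < ord u)).card : ℝ) * (q / (1 - δ)) +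
              κ / k * ∑ v ∈ univ.filter (fun v => G.Adj u v ∧ ord v < ord u),
                ((univ.filter (fun w => G.Adj u w ∧ G.Adj v w ∧ ord w < ord v)).card : ℝ) := by
              rw [Finset.sum_add_distrib, Finset.sum_const, nsmul_eq_mul, Finset.mul_sum]
          _ ≤ d * (q / (1 - δ)) + κ / k * ((d : ℝ) ^ 2 / f) :=
              add_le_add (mul_le_mul_of_nonneg_right (hcard u)
                (div_pos hq0 (by linarith)).le)
                (mul_le_mul_of_nonneg_left (hedge u) (div_pos hκ0 hk0).le)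
          _ = c * y / (1 - δ) + δ := by
              have : (1 : ℝ) - δ ≠ 0 := by
                have : 0 < 1 - δ := by linarith
                exact this.ne'
              rw [hκk2, hqdef]
              field_simp
          _ ≤ 1 / 2 * ((1 - 2 * δ) * (y / 2 - Real.log y + Real.log δ)) := hpar'
          _ ≤ 1 / 2 * ((1 - κ) * Real.log (κ / q)) := by
              have h5 : (1 - 2 * δ) * (y / 2 - Real.log y + Real.log δ) ≤
                  (1 - κ) * Real.log (κ / q) :=
                mul_le_mul (by linarith) hlogq hposL.le (by linarith)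
              linarith)
    refine ⟨w, h1, h2, h3, h4.trans ?_⟩
    have e : ((1 - 1 / 2) * q)⁻¹ = 8 / (1 - 4 * δ) * (d / y) := by
      have : (1 : ℝ) - 4 * δ ≠ 0 := by
        have : 0 < 1 - 4 * δ := by linarith
        exact this.ne'
      rw [hqdef, hc]
      field_simp
      ring
    rw [e, mul_div_assoc]
    refine mul_le_mul_of_nonneg_right ?_ (div_pos hdpos hy0).le
    have h5 : 8 / (1 - 4 * δ) ≤ 8 + ε := by
      rw [div_le_iff₀ (by linarith)]
      nlinarith
    have h6 : 0 ≤ 24 * y₀ ^ 2 / y := by positivity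
    linarith

end Pool.Agent.Helper60.HC
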