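import Pool.Agent.Helper60.HC.Main2
import Pool.Agent.Helper66.HC.ELIM
import Pool.Agent.Helper51.HC.ELOC2
import Pool.Agent.Helper51.HC.LOR
import Pool.Agent.Helper16.HC.CHB
import Pool.Agent.Helper16.HC.EMPH
import Pool.Agent.Helper73.HC.PAIR
import Pool.Agent.Helper55.HC.QPI
import Pool.Agent.Helper70.HC.NORT
import Pool.Agent.Helper61.HC.PRJ
import Pool.Agent.Helper7.SGM.SEQ
import Pool.Agent.Helper54.SGM.CLS
import Pool.Agent.Helper29.BL.Asm

/-!
# Project HC: the assembly, part 3 (all the packets of the module P)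
-/

set_option autoImplicit false

namespace Pool.Agent.Helper60.HC

theorem th_ELOC2 : S_ELOC2 := Pool.Agent.Helper51.HC.ELOC2.t Pool.Agent.Helper66.HC.ELIM.t

theorem th_CHB : S_CHB := Pool.Agent.Helper16.HC.CHB.t

theorem th_PRJ : S_PRJ := Pool.Agent.Helper61.HC.PRJ.t th_ELOC2 th_CHB

theorem th_EMPH : S_EMPH := Pool.Agent.Helper16.HC.EMPH.t th_ELOC2

theorem th_NORT : S_NORT := Pool.Agent.Helper70.HC.NORT.t

theorem th_LOR : S_LOR := Pool.Agent.Helper51.HC.LOR.t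

theorem th_QPI : S_QPI := Pool.Agent.Helper55.HC.QPI.t

theorem th_PAIR : S_PAIR := Pool.Agent.Helper73.HC.PAIR.t

/-- `(*)` from P1 and P2 -/
theorem main_mod (hP1 : S_P1) (hP2 : S_P2) : S_MAIN :=
  main_of Pool.Agent.Helper29.BL.th_can Pool.Agent.Helper12.SGB.th_EUP
    (Pool.Agent.Helper7.SGM.t_SEQ Pool.Agent.Helper54.SGM.t_CLS) hP1 hP2 th_PRJ th_EMPH
    th_NORT th_LOR th_QPI th_PAIR th_CHB

end Pool.Agent.Helper60.HC
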