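import Pool.Agent.Helper42.SG.GoalsP
import Pool.Agent.Helper5.UN.Defs

/-!
# Project HC (MP_a41896_nt), module P: sections 1 and 2.1 of the paper (`PAPER.md`)

Statements of the theorems P1, P2 (proved in `Helper68/VN`), projections, Northcott, pigeonhole, the theorem `(*)`.
`σ` is any finite type. Every goal has its proof in the docstring; the named goals may be hypotheses
(`theorem t (h : S_..) .. : S_..`).
-/

set_option autoImplicit false

open MvPolynomial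

namespace Pool.Agent.Helper60.HC

open WeierstrassCurve Height Height.AdmissibleAbsValues
open Pool.Agent.Helper29.BL Pool.Agent.Helper92.Ru Pool.Agent.Helper42.SG
open Pool.Agent.Helper5.UN (hv CodimGT cH)

noncomputable section

/-! ## Definitions -/

section defs

/-- the form of multidegree `(E, .., E)` of `g` in the chart `a`: `X_i ↦ X_i` (`a i = true`), or `X_i ↦ 1/X_i`
multiplied by `X_i ^ E` (`a i = false`) -/
def chs {K : Type} [Field K] {σ : Type} [Fintype σ] (a : σ → Bool) (E : ℕ)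
    (g : MvPolynomial σ K) : MvPolynomial σ K :=
  hv C (fun _ => E) g fun i => if a i = true then ![X i, 1] else ![1, X i]

/-- `ρ_v(x) = min(1, max_j |f_j(x)|_v / (∏ M_v(x_i))^D)` -/
def rhs {K : Type} [Field K] {σ : Type} [Fintype σ] {J : Type} (f : J → MvPolynomial σ K) (D : ℕ)
    (v : AbsoluteValue K ℝ) (x : σ → K) : ℝ :=
  min 1 ((⨆ j, v (eval x (f j))) / (∏ i, Mv v (x i)) ^ D)

/-- a nonzero polynomial in the variables `X_i`, `i ∈ I`, of degrees `≤ D` and height `≤ A` vanishes at `x` -/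
def Lo {K : Type} [Field K] [NumberField K] {σ : Type} (I : Finset σ) (D : ℕ) (A : ℝ)
    (x : σ → K) : Prop :=
  ∃ g : MvPolynomial σ K, g ≠ 0 ∧ (∀ i, g.degreeOf i ≤ D) ∧ (∀ i, i ∉ I → g.degreeOf i = 0) ∧
    eval x g = 0 ∧ Real.log (PH g) ≤ A

variable {K : Type} [Field K] {σ : Type} {W : σ → Affine K}

/-- the `x`-coordinates of a point of `∏ W_i` -/
def xs (z : ∀ i, (W i).Point) : σ → K := fun i => xc (z i)

/-- `|z|²` -/
def nrs [Fintype σ] (H : ∀ i, (W i).Point → ℝ) (z : ∀ i, (W i).Point) : ℝ := ∑ i, H i (z i)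

/-- `n` exceptional points `x j`, a point `x0`, `2^(e j) x j` near `x0`; `q_j = 4^(e j)`, `T ~ |x0|² ~ q_j |x_j|²` -/
structure Al [NumberField K] [DecidableEq K] [Fintype σ] (H : ∀ i, (W i).Point → ℝ) {J : Type}
    (D : ℕ) (f : J → MvPolynomial σ K) (n : ℕ) (θ ε K0 : ℝ) (x : Fin n → ∀ i, (W i).Point)
    (x0 : ∀ i, (W i).Point) (e : Fin n → ℕ) (T : ℝ) : Prop where
  nd : ∀ j i, x j i ≠ 0 ∧ ps (x j i) ≠ 0
  nd0 : ∀ i, x0 i ≠ 0 ∧ ps (x0 i) ≠ 0
  up : ∀ j, (4 : ℝ) ^ e j * nrs H (x j) ≤ 2 * T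
  up0 : nrs H x0 ≤ 2 * T
  near : ∀ j, nrs H ((2 ^ e j) • x j - x0) ≤ θ * T
  exc : ∀ j, ε * T ≤ (4 : ℝ) ^ e j * cH D f (xs (x j))
  off : ∀ j, ∃ t, eval (xs (x j)) (f t) ≠ 0
  big : ∀ j, K0 ≤ (4 : ℝ) ^ e j
  bigT : ∀ j, K0 * 4 ^ e j ≤ T
  grow : ∀ j j', j < j' → K0 * 4 ^ e j' ≤ 4 ^ e j

end defs

/-! ## Theorems P1 and P2 (module PG, `Helper68/VN`) -/

/-- **P1** (paper, sec. 1). -/
def S_P1 : Prop :=
  ∀ (K : Type) [Field K] [NumberField K] [DecidableEq K] (σ : Type) [Fintype σ] [DecidableEq σ]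
    (W : σ → Affine K), (∀ i, (W i).IsElliptic) → ∀ (H : ∀ i, (W i).Point → ℝ) (c₀ : ℝ),
    (∀ i, CanH (W i) (H i) c₀) → ∀ (D : ℕ) (J : Type) [Fintype J] (f : J → MvPolynomial σ K),
    (∀ j i, degreeOf i (f j) ≤ D) → CodimGT D f 1 → 2 ≤ Fintype.card σ → ∀ ε : ℝ, 0 < ε →
    ∃ (n D' : ℕ) (C' θ K0 : ℝ), 0 < θ ∧ 0 ≤ C' ∧
      ∀ (x : Fin (n + 1) → ∀ i, (W i).Point) (x0 : ∀ i, (W i).Point) (e : Fin (n + 1) → ℕ)
        (T : ℝ), Al H D f (n + 1) θ ε K0 x x0 e T →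
        (∃ j, Lo Finset.univ D' (C' * (4 ^ e 0 / 4 ^ e j)) (xs (x j))) ∨
          Lo Finset.univ D' (C' * 4 ^ e 0) (xs x0)

/-- **P2** (paper, sec. 1). -/
def S_P2 : Prop :=
  ∀ (K : Type) [Field K] [NumberField K] [DecidableEq K] (σ : Type) [Fintype σ] [DecidableEq σ]
    (W : σ → Affine K), (∀ i, (W i).IsElliptic) → ∀ (H : ∀ i, (W i).Point → ℝ) (c₀ : ℝ),
    (∀ i, CanH (W i) (H i) c₀) → ∀ (D s : ℕ) (J : Type) [Fintype J] (f : J → MvPolynomial σ K),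
    (∀ j i, degreeOf i (f j) ≤ D) → CodimGT D f s → s + 1 ≤ Fintype.card σ →
    ∀ (ε : ℝ) (D0 : ℕ) (C0 : ℝ), 0 < ε → 0 ≤ C0 →
    ∃ (D' : ℕ) (C' θ K0 : ℝ), 0 < θ ∧ 0 ≤ C' ∧
      ∀ (I0 : Finset σ) (x : Fin 1 → ∀ i, (W i).Point) (x0 : ∀ i, (W i).Point) (e : Fin 1 → ℕ)
        (T : ℝ), I0.card ≤ s → Al H D f 1 θ ε K0 x x0 e T →
        ¬ Lo I0 D0 (C0 * 4 ^ e 0) (xs x0) →
        (∀ i, i ∉ I0 → Lo (insert i I0) D0 (C0 * 4 ^ e 0) (xs x0)) →
        Lo Finset.univ D' C' (xs (x 0))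

/-! ## Section 2.1 -/

/-- **ELIM** (sec. 2.1, algebra).
PROOF. Fix `a`; `b` = the ideal generated by the `chs a D (f j)`. Claim: there is `Z ≠ 0` in the variables of `J` with `Z ∈ b` (then `Z = ∑ h_j chs a D (f j)`,
`Ideal.mem_span_range_iff_exists_fun`-type lemma). Otherwise (`Ideal.exists_le_prime_disjoint` for the multiplicative set of the nonzero polynomials in the variables of `J`, i.e. `rename` of nonzero
polynomials over `J`) there is a prime `P ⊇ b` which contains none of them; `Ω = Frac(K[X]/P)`, `ζ` = the classes of the variables: `ζ_i`, `i ∈ J`, are algebraically independent. Pairs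
`y_i = (ζ_i, 1)` (`a i = true`), and for `a i = false` `y_i = (ζ_i⁻¹, 1)` if `ζ_i ≠ 0`, `(1, 0)` if `ζ_i = 0`; `hv .. (f j) y = 0` (`aeval ζ (chs a D (f j)) = hv (algebraMap) .. (pairs (ζ_i,1), (1,ζ_i))` by `G_HVB` (5), and scaling
(3), both landed in `Helper5.UN`). CodimGT: `T`, `|T| + s < |σ|`, all `y_i 0`, so all `ζ_i`, algebraic over `K(T)`; so `|J| ≤ |T|` (transcendence degree), `|J| + s < |σ|`: contradiction. `E` = maximum of `1` and of
all the degrees of the finitely many `Z` (finitely many `J`, `a`). -/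
def S_ELIM : Prop :=
  ∀ (K : Type) [Field K] (σ : Type) [Fintype σ] [DecidableEq σ] (s D : ℕ) (ι : Type) [Fintype ι]
    (f : ι → MvPolynomial σ K), (∀ j i, degreeOf i (f j) ≤ D) → CodimGT D f s →
    ∃ E : ℕ, 1 ≤ E ∧ ∀ (J : Finset σ), Fintype.card σ ≤ J.card + s → ∀ a : σ → Bool,
      ∃ (Z : MvPolynomial σ K) (h : ι → MvPolynomial σ K), Z ≠ 0 ∧ (∀ i, Z.degreeOf i ≤ E) ∧
        (∀ i, i ∉ J → Z.degreeOf i = 0) ∧ Z = ∑ j, h j * chs a D (f j)

/-- **ELOC2** (sec. 2.1, local comparison). Hypothesis allowed: ELIM.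
PROOF. For `Z_a` of ELIM let `Z~_a = ∑_g coeff_g(Z_a) ∏_(i ∈ J, a i) X_i^(g_i) ∏_(i ∈ J, a i = false) X_i^(E - g_i)`: nonzero (the map of monomials `g ↦ ..` is injective on degrees `≤ E`), in the variables of `J`, degrees
`≤ E`. `P := ∏_a Z~_a` (over all `a : σ → Bool`), degrees `≤ E' = 2^|σ| E`; the `E` of the statement is `E'`. At a place `v` and `x` let `a i = decide (v (x_i) ≤ 1)`, `ζ_i = x_i` or `x_i⁻¹`, `v (ζ_i) ≤ 1`. Then
`v(Z~_a(x)) = v(Z_a(ζ)) ∏_(i ∈ J) Mv(x_i)^E` (`Mv(x_i) = 1` if `a i`, `= v(x_i)` otherwise), `v(Z_a(ζ)) = v(∑ h_j(ζ) (chs a D f_j)(ζ)) ≤ cst v |ι| * max_j v(h_j(ζ)) * max_j v((chs a D f_j)(ζ))`, `v(h_j(ζ)) ≤` a place constant (trivial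
estimate of a polynomial at a point with `v(ζ_i) ≤ 1`: `G_HVB` (6) or `Helper29/GC/Loc.lean` `evbd`), and `v((chs a D f_j)(ζ)) (∏ Mv(x_i))^D = v(f_j(x))` (HVB (3), (4), (5)). For the other charts `a'`:
`v(Z~_(a')(x)) ≤ B_v ∏_(i ∈ J) Mv(x_i)^E` (trivial estimate). Multiply over all the charts: `v(P(x)) ≤ B_v (∏_(i∈J) Mv)^(E') max_j v(f_j(x)) / (∏ Mv)^D`. -/
def S_ELOC2 : Prop :=
  ∀ (K : Type) [Field K] [NumberField K] (σ : Type) [Fintype σ] [DecidableEq σ] (s D : ℕ)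
    (ι : Type) [Fintype ι]
    (f : ι → MvPolynomial σ K), (∀ j i, degreeOf i (f j) ≤ D) → CodimGT D f s →
    ∃ (E : ℕ) (B : AbsoluteValue K ℝ → ℝ), 1 ≤ E ∧ PlC B ∧ ∀ (J : Finset σ),
      Fintype.card σ ≤ J.card + s → ∃ P : MvPolynomial σ K, P ≠ 0 ∧ (∀ i, P.degreeOf i ≤ E) ∧
        (∀ i, i ∉ J → P.degreeOf i = 0) ∧ ∀ (v : AbsoluteValue K ℝ) (x : σ → K),
        v (eval x P) * (∏ i, Mv v (x i)) ^ D ≤
          B v * (∏ i ∈ J, Mv v (x i)) ^ E * ⨆ j, v (eval x (f j))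

/-- **CHB** (sec. 0, trivial upper bound, and `cH = - ∑_v log ρ_v`).
PROOF. Let `f_(j₀)(x) ≠ 0`. `S_v := max_j v(f_j(x)) > 0`, `y_v := (∏ Mv)^D / S_v`, `ρ_v = min 1 (1/y_v)`, so `0 < ρ_v ≤ 1` and `- log ρ_v = log⁺ y_v`. `S_v ≤ B_v (∏ Mv)^D` (trivial estimate, `B` a place constant depending
on `f` only), so `y_v ≥ 1/B_v`, `log⁺ y_v ≤ log y_v + log B_v ≤ D ∑ log Mv(x_i) - log v(f_(j₀)(x)) + log B_v`; sum over the places: `PS_log_Mv`, `PS_log` (product formula), `c = PS (log B)`. `FS`: all but finitely many `v` have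
`v(x_i) = 1` or `x_i = 0`, all the coefficients of `f` and the `f_j(x) ≠ 0` of absolute value `1` or `0`. (Sums over the places: `Pool/Agent/Helper29/BL/PS.lean`; see how `cH` is treated in `Helper5/UN`, `EST`.) -/
def S_CHB : Prop :=
  ∀ (K : Type) [Field K] [NumberField K] (σ : Type) [Fintype σ] (D : ℕ) (J : Type) [Fintype J]
    (f : J → MvPolynomial σ K), (∀ j i, degreeOf i (f j) ≤ D) → ∃ c : ℝ, 0 ≤ c ∧
    ∀ x : σ → K, (∃ j, eval x (f j) ≠ 0) →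
      cH D f x ≤ D * ∑ i, logHeight₁ (x i) + c ∧
      FS (fun v => Real.log (rhs f D v x)) ∧ PS (fun v => Real.log (rhs f D v x)) = - cH D f x ∧
      ∀ v, 0 < rhs f D v x ∧ rhs f D v x ≤ 1

/-- **PRJ** (sec. 2.1, projections). `|I| = v + 2`, `v = |σ| - s - 1`. Hypotheses allowed: ELOC2, CHB.
PROOF. `E`, `P_J` from ELOC2; for `i ∈ I` let `P_i := P_(I.erase i)` (`|σ| ≤ |I| - 1 + s`). `J' = I × Bool` (`{i // i ∈ I} × Bool`), `f' (i, b)` = the polynomial over `{i // i ∈ I}` with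
`rename Subtype.val (f' (i, b)) = P_i * X_i ^ (if b then E else 0)` (`exists_rename_eq_of_vars_subset_range`; `degreeOf = 0` iff not in `vars`). Degrees `≤ E` (`P_i` does not involve `X_i`).
CODIMENSION (`CodimGT E f' 1`): let `y` be a common zero over `Ω`; choose `S ⊆ I` such that the `y_i 0`, `i ∈ S`, are algebraically independent and all the `y_i 0` are algebraic over `K(y_i 0 : i ∈ S)` (transcendence basis); `T` = the set of these.
If `|S| + 1 < |I|` done. Otherwise `S ⊇ I.erase i` for some `i ∈ I`; for `j ∈ I.erase i` `y_j 0` is transcendental or at least not equal `y_j = (1, 0)` (`1` is algebraic; if `I.erase i = ∅` nothing to say), so `y_j = (y_j 0, 1)`, and by independence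
`P_i(y) ≠ 0`; now `hv .. (f' (i, b)) y = P_i(y_j 0 : j ≠ i) * (y_i 1)^E` (`b = false`) or `* (y_i 0)^E` (`b = true`), one of them is not `0` (`y_i 1 = 1` or `y_i 0 = 1`): contradiction.
LOCAL: for all `v`: `v(f'(i,b)(x_I)) ≤ v(P_i(x)) Mv(x_i)^E`, so by ELOC2 `max_(i,b) v(f'(i,b)(x_I)) * (∏_σ Mv)^D ≤ B_v (∏_I Mv)^E max_j v(f_j(x))`, i.e. `(∏_σ Mv)^D / max_j v(f_j(x)) ≤ B_v (∏_I Mv)^E / max v(f'(x_I))` when the last maximum is not `0`; take
`log⁺` (`log⁺ (B y) ≤ log B + log⁺ y`) and sum over the places (`FS` from CHB for `f` and `f'`). `G := P_(i₀) * f_(j₀)` for some `i₀ ∈ I` (`f'(i₀, false)(x_I) = P_(i₀)(x) ≠ 0`) and `f_(j₀) ≠ 0`, which exists: otherwise all `y` are common zeros, and over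
`Ω = FractionRing (MvPolynomial σ K)`, `y_i = (X_i, 1)`, CodimGT gives a contradiction. -/
def S_PRJ : Prop :=
  ∀ (K : Type) [Field K] [NumberField K] (σ : Type) [Fintype σ] [DecidableEq σ] (s D : ℕ)
    (ι : Type) [Fintype ι]
    (f : ι → MvPolynomial σ K), (∀ j i, degreeOf i (f j) ≤ D) → CodimGT D f s →
    ∀ I : Finset σ, I.card + s = Fintype.card σ + 1 → 1 ≤ I.card →
    ∃ (E : ℕ) (J : Type) (_ : Fintype J) (f' : J → MvPolynomial {i // i ∈ I} K)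
      (G : MvPolynomial σ K) (c : ℝ), (∀ j i, degreeOf i (f' j) ≤ E) ∧
      CodimGT E f' 1 ∧ G ≠ 0 ∧ 0 ≤ c ∧ ∀ x : σ → K, eval x G ≠ 0 →
        (∃ j, eval (fun i : {i // i ∈ I} => x i.1) (f' j) ≠ 0) ∧ (∃ j, eval x (f j) ≠ 0) ∧
        cH D f x ≤ cH E f' (fun i : {i // i ∈ I} => x i.1) + c

/-- **EMPH** (the centre is empty). Hypothesis allowed: ELOC2.
PROOF. ELOC2 with `J = ∅`: a nonzero constant `P` (all degrees are `0`): `v(P) (∏ Mv)^D ≤ B_v max_j v(f_j(x))` for all `v` and `x`, so `(∏ Mv)^D / max_j v(f_j(x)) ≤ B_v / v(P)` (if the maximum is `0` the left side is `0` in Lean),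
`log⁺ ≤ log B_v + log⁺ (1 / v(P))`; sum over the places (`PS_mono`; `FS` is not needed for the upper bound of `finsum` if one argues as in CHB: the maximum is `> 0` by the inequality). -/
def S_EMPH : Prop :=
  ∀ (K : Type) [Field K] [NumberField K] (σ : Type) [Fintype σ] [DecidableEq σ] (s D : ℕ)
    (ι : Type) [Fintype ι]
    (f : ι → MvPolynomial σ K), (∀ j i, degreeOf i (f j) ≤ D) → CodimGT D f s →
    Fintype.card σ ≤ s → ∃ c : ℝ, ∀ x : σ → K, cH D f x ≤ c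

/-! ## Section 1 -/

/-- **NORT** (Northcott; the landed `Helper35.SGM.FINH` is the case of irreducible polynomials in two variables, its proof works).
PROOF. Let `f ≠ 0`, degrees `≤ D`, `log PH f ≤ A`; divide by one nonzero coefficient: the other coefficients have bounded height (`logHeight₁ (x_i / x_j) ≤ logHeight x`), so there are finitely many `f` up to factors in `K`; `Z` = the product of
representatives. -/
def S_NORT : Prop :=
  ∀ (K : Type) [Field K] [NumberField K] (σ : Type) [Fintype σ] (D : ℕ) (A : ℝ),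
    ∃ Z : MvPolynomial σ K, Z ≠ 0 ∧
      ∀ g : MvPolynomial σ K, g ≠ 0 → (∀ i, g.degreeOf i ≤ D) → Real.log (PH g) ≤ A → g ∣ Z

/-- **LOR** (rules for `Lo`).
PROOF. (1) monotone: clear. (2) restriction to the coordinates of `I`: `rename Subtype.val g` (injective): degrees `degreeOf_rename_of_injective`, `0` for `i ∉ I`, value `eval_rename`, `PH` does not change (the supports correspond, `coeff_rename_mapDomain`;
`REN` in `Helper76/SGA/Goals.lean`, landed, contains this for `Fin`; here for any injective map of finite types). (3) a nonzero polynomial without variables does not vanish. (4) maximal set: `Finset.exists_maximal`-type argument for the finite set of the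
`I` with `¬ Lo I D A x`, not empty by (3). -/
def S_LOR : Prop :=
  ∀ (K : Type) [Field K] [NumberField K] (σ : Type) [Fintype σ] [DecidableEq σ] (x : σ → K),
    (∀ (I I' : Finset σ) (D D' : ℕ) (A A' : ℝ), I ⊆ I' → D ≤ D' → A ≤ A' → Lo I D A x →
      Lo I' D' A' x) ∧
    (∀ (I : Finset σ) (D : ℕ) (A : ℝ),
      Lo Finset.univ D A (fun i : {i // i ∈ I} => x i.1) → Lo I D A x) ∧
    (∀ (D : ℕ) (A : ℝ), ¬ Lo ∅ D A x) ∧
    ∀ (k D : ℕ) (A : ℝ), (∀ I : Finset σ, I.card = k + 1 → Lo I D A x) →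
      ∃ I0 : Finset σ, I0.card ≤ k ∧ ¬ Lo I0 D A x ∧ ∀ i, i ∉ I0 → Lo (insert i I0) D A x

/-- **QPI** (products of groups). PROOF. `IsQuad` of a finite sum of `IsQuad` functions of the components; `AddSubgroup.pi Set.univ Γ` is finitely generated if all the `Γ i` are (generated by the images of the
generators under `AddMonoidHom.single`; or `Module.Finite.pi` for `ℤ`-modules, `AddSubgroup.fg_iff_..`, and an isomorphism `(∀ i, Γ i) ≃ pi`). -/
def S_QPI : Prop :=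
  (∀ (σ : Type) [Fintype σ] (G : σ → Type) [∀ i, AddCommGroup (G i)] (H : ∀ i, G i → ℝ),
    (∀ i, IsQuad (H i)) → IsQuad (fun z : ∀ i, G i => ∑ i, H i (z i))) ∧
  ∀ (σ : Type) [Fintype σ] (G : σ → Type) [∀ i, AddCommGroup (G i)] (Γ : ∀ i, AddSubgroup (G i)),
    (∀ i, (Γ i).FG) → (AddSubgroup.pi Set.univ Γ).FG

/-- **PAIR** (sec. 1, pairs of points of the aligned sequence). `x 0, .., x n`, `e' j = e j` for `j < n`, `e' n = 0`, `y j = H (x j)`.
PROOF. `√H` is a seminorm (`IsQuad.triangle`, `IsQuad.nsmul`). Let `t = y n`. `|2^(e' j) x j - x n| ≤ θ √t` for all `j ≤ n`, so `(1-θ)² t ≤ 4^(e' j) y j ≤ (1+θ)² t` (`QTR` in `Helper92/SGE`, landed). Growth: `y j ≥ K0 y i` for `i < j` (`K0 ≥ 1`, `y ≥ 0`). `i < j`: `4^(e' j) ≤ (1+θ)² t / y j ≤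
(1+θ)² t / (K0 y i) ≤ ((1+θ)²/(1-θ)²) 4^(e' i) / K0 < 4^(e' i)` (`y j > 0`), so `e' j < e' i`, and `K 4^(e' j) ≤ 4^(e' i)` for `K ≤ K0 / 4`. `2^(e' j) (2^(e' i - e' j) x i - x j) = 2^(e' i) x i - 2^(e' j) x j` has `√H ≤ 2 θ √t`, so
`√H(2^(e' i - e' j) x i - x j) ≤ 2 θ √t / 2^(e' j) ≤ 2θ √(y j) / (1-θ) ≤ 4 θ √(y j)`. The bounds for `4^(e' i - e' j) y i` again by QTR with `4θ ≤ 1/8`. -/
def S_PAIR : Prop :=
  ∀ (G : Type) [AddCommGroup G] (H : G → ℝ), IsQuad H → ∀ (n : ℕ) (θ K0 : ℝ) (x : ℕ → G)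
    (e : ℕ → ℕ), 0 ≤ θ → θ ≤ 1 / 32 → 16 ≤ K0 → K0 ≤ H (x 0) →
    (∀ j < n, K0 * H (x j) ≤ H (x (j + 1))) →
    (∀ j < n, H ((2 ^ e j) • x j - x n) ≤ θ ^ 2 * H (x n)) →
    ∃ e' : ℕ → ℕ, ∀ i j, i < j → j ≤ n →
      e' j < e' i ∧ K0 * H (x i) ≤ H (x j) ∧ K0 ≤ H (x i) ∧ K0 / 4 * (4 : ℝ) ^ e' j ≤ 4 ^ e' i ∧
      H ((2 ^ (e' i - e' j)) • x i - x j) ≤ (4 * θ) ^ 2 * H (x j) ∧
      3 / 4 * H (x j) ≤ 4 ^ (e' i - e' j) * H (x i) ∧ (4 : ℝ) ^ (e' i - e' j) * H (x i) ≤ 4 / 3 * H (x j)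

/-- **MAIN** (theorem `(*)`). -/
def S_MAIN : Prop :=
  ∀ (K : Type) [Field K] [NumberField K] [DecidableEq K] (σ : Type) [Fintype σ] [DecidableEq σ]
    (W : σ → Affine K), (∀ i, (W i).IsElliptic) → ∀ Γ : ∀ i, AddSubgroup (W i).Point,
    (∀ i, (Γ i).FG) → ∀ (D s : ℕ) (ι : Type) [Fintype ι] (f : ι → MvPolynomial σ K),
    (∀ j i, degreeOf i (f j) ≤ D) → CodimGT D f s → Fintype.card σ ≤ 2 * s →
    ∀ ε : ℝ, 0 < ε → ∃ (Z : MvPolynomial σ K) (c : ℝ), Z ≠ 0 ∧ 0 ≤ c ∧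
      ∀ z : ∀ i, (W i).Point, (∀ i, z i ∈ Γ i) → (∀ i, z i ≠ 0) → eval (xs z) Z ≠ 0 →
        cH D f (xs z) ≤ ε * ∑ i, hx (z i) + c

end

end Pool.Agent.Helper60.HC
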