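import Mathlib

/-!
# A random independent set in a graph with an ordering of the vertices

The vertices are natural numbers, `N t` is the set of the earlier neighbours of `t`. The vertices are
treated in their order; `xx t J` is the probability with which `t` is put into the random set, if
`J` is the set of the vertices chosen before.
-/

set_option autoImplicit false

namespace Pool.Agent.Helper60.HC

open Finset

/-- The probability of choosing `t`, if the set chosen so far is `J`. -/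
noncomputable def xx (N : ℕ → Finset ℕ) (p : ℕ → ℝ) (κ : ℝ) : ℕ → Finset ℕ → ℝ
  | t, J =>
    if p t * ∏ v : Fin t, (if (v : ℕ) ∈ N t then
        (if (v : ℕ) ∈ J then 0 else (1 - xx N p κ v J)⁻¹) else 1) ≤ κ then
      p t * ∏ v : Fin t, (if (v : ℕ) ∈ N t then
        (if (v : ℕ) ∈ J then 0 else (1 - xx N p κ v J)⁻¹) else 1)
    else 0
  termination_by t => t
  decreasing_by all_goals exact v.2

/-- The martingale of the set `A`. -/
noncomputable def MM (N : ℕ → Finset ℕ) (p : ℕ → ℝ) (κ : ℝ) (A : Finset ℕ) (t : ℕ)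
    (J : Finset ℕ) : ℝ :=
  ∏ v ∈ range t, (if v ∈ A then (if v ∈ J then 0 else (1 - xx N p κ v J)⁻¹) else 1)

/-- The expectation. -/
noncomputable def EE (N : ℕ → Finset ℕ) (p : ℕ → ℝ) (κ : ℝ) : ℕ → (Finset ℕ → ℝ) → ℝ
  | 0, g => g ∅
  | t + 1, g => EE N p κ t fun J =>
      xx N p κ t J * g (insert t J) + (1 - xx N p κ t J) * g J

/-- Independent sets of vertices smaller than `t`. -/
def Ind (N : ℕ → Finset ℕ) (t : ℕ) (J : Finset ℕ) : Prop :=
  J ⊆ range t ∧ ∀ i ∈ J, ∀ j ∈ N i, j ∉ J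

variable {N : ℕ → Finset ℕ} {p : ℕ → ℝ} {κ : ℝ}

theorem xx_eq (t : ℕ) (J : Finset ℕ) :
    xx N p κ t J = if p t * MM N p κ (N t) t J ≤ κ then p t * MM N p κ (N t) t J else 0 := by
  rw [xx, MM, Finset.prod_range]

theorem xx_le (hκ : 0 ≤ κ) (t : ℕ) (J : Finset ℕ) : xx N p κ t J ≤ κ := by
  rw [xx_eq]
  split_ifs with h
  · exact h
  · exact hκ

theorem MM_nonneg (hκ : 0 ≤ κ) (hκ1 : κ < 1) (A : Finset ℕ) (t : ℕ) (J : Finset ℕ) :
    0 ≤ MM N p κ A t J := by
  unfold MM
  refine Finset.prod_nonneg fun v _ => ?_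
  split_ifs
  · exact le_refl 0
  · have := xx_le (N := N) (p := p) hκ v J
    exact inv_nonneg.2 (by linarith)
  · exact zero_le_one

theorem xx_nonneg (hκ : 0 ≤ κ) (hκ1 : κ < 1) (hp : ∀ t, 0 ≤ p t) (t : ℕ) (J : Finset ℕ) :
    0 ≤ xx N p κ t J := by
  rw [xx_eq]
  split_ifs
  · exact mul_nonneg (hp t) (MM_nonneg hκ hκ1 _ _ _)
  · exact le_refl 0

theorem xx_le_MM (hκ : 0 ≤ κ) (hκ1 : κ < 1) (hp : ∀ t, 0 ≤ p t) (t : ℕ) (J : Finset ℕ) :
    xx N p κ t J ≤ p t * MM N p κ (N t) t J := by
  rw [xx_eq]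
  split_ifs
  · exact le_refl _
  · exact mul_nonneg (hp t) (MM_nonneg hκ hκ1 _ _ _)

theorem xx_local (t : ℕ) (J J' : Finset ℕ) (h : ∀ v < t, (v ∈ J ↔ v ∈ J')) :
    xx N p κ t J = xx N p κ t J' := by
  induction t using Nat.strong_induction_on with
  | _ t ih =>
    have hM : MM N p κ (N t) t J = MM N p κ (N t) t J' := by
      unfold MM
      refine Finset.prod_congr rfl fun v hv => ?_
      have hvt := Finset.mem_range.1 hv
      rw [ih v hvt fun w hw => h w (hw.trans hvt)]
      simp only [h v hvt]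
    rw [xx_eq, xx_eq, hM]

theorem MM_local (A : Finset ℕ) (t : ℕ) (J J' : Finset ℕ) (h : ∀ v < t, (v ∈ J ↔ v ∈ J')) :
    MM N p κ A t J = MM N p κ A t J' := by
  unfold MM
  refine Finset.prod_congr rfl fun v hv => ?_
  have hvt := Finset.mem_range.1 hv
  rw [xx_local v J J' fun w hw => h w (hw.trans hvt)]
  simp only [h v hvt]

theorem MM_succ (A : Finset ℕ) (t : ℕ) (J : Finset ℕ) :
    MM N p κ A (t + 1) J = MM N p κ A t J *
      (if t ∈ A then (if t ∈ J then 0 else (1 - xx N p κ t J)⁻¹) else 1) := by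
  unfold MM
  rw [Finset.prod_range_succ]

theorem mem_insert_lt (t : ℕ) (J : Finset ℕ) : ∀ v < t, (v ∈ insert t J ↔ v ∈ J) := by
  intro v hv
  rw [Finset.mem_insert]
  constructor
  · rintro (h | h)
    · omega
    · exact h
  · exact fun h => Or.inr h

theorem not_mem_of_subset_range {t : ℕ} {J : Finset ℕ} (h : J ⊆ range t) : t ∉ J := by
  intro hm
  have := Finset.mem_range.1 (h hm)
  omega

theorem xx_eq_zero (hN : ∀ i, ∀ j ∈ N i, j < i) (t : ℕ) (J : Finset ℕ) (j : ℕ)
    (hj : j ∈ N t) (hJ : j ∈ J) : xx N p κ t J = 0 := by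
  have hM : MM N p κ (N t) t J = 0 := by
    unfold MM
    exact Finset.prod_eq_zero (Finset.mem_range.2 (hN t j hj)) (by simp [hj, hJ])
  rw [xx_eq, hM]
  simp

theorem EE_mono (hκ : 0 ≤ κ) (hκ1 : κ < 1) (hp : ∀ t, 0 ≤ p t) (hN : ∀ i, ∀ j ∈ N i, j < i)
    (t : ℕ) : ∀ (g g' : Finset ℕ → ℝ), (∀ J, Ind N t J → g J ≤ g' J) →
      EE N p κ t g ≤ EE N p κ t g' := by
  induction t with
  | zero =>
    intro g g' h
    exact h ∅ ⟨by simp, by simp⟩
  | succ t ih =>
    intro g g' h
    refine ih _ _ fun J hJ => ?_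
    have hx0 := xx_nonneg (N := N) hκ hκ1 hp t J
    have hx1 := xx_le (N := N) (p := p) hκ t J
    have htJ := not_mem_of_subset_range hJ.1
    have h1 : g J ≤ g' J := h J ⟨hJ.1.trans (Finset.range_subset_range.2 (Nat.le_succ t)), hJ.2⟩
    have h2 : xx N p κ t J * g (insert t J) ≤ xx N p κ t J * g' (insert t J) := by
      by_cases hex : ∃ j ∈ N t, j ∈ J
      · obtain ⟨j, hj, hjJ⟩ := hex
        rw [xx_eq_zero hN t J j hj hjJ]
        simp
      · refine mul_le_mul_of_nonneg_left (h _ ⟨?_, ?_⟩) hx0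
        · intro i hi
          rcases Finset.mem_insert.1 hi with rfl | hi
          · exact Finset.mem_range.2 (Nat.lt_succ_self _)
          · exact Finset.mem_range.2 (Nat.lt_succ_of_lt (Finset.mem_range.1 (hJ.1 hi)))
        · intro i hi j hj hjm
          rcases Finset.mem_insert.1 hi with hi1 | hi1
          · rcases Finset.mem_insert.1 hjm with hj1 | hj1
            · have h3 := hN _ _ hj
              omega
            · exact hex ⟨j, hi1 ▸ hj, hj1⟩
          · rcases Finset.mem_insert.1 hjm with hj1 | hj1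
            · have h3 := hN _ _ hj
              have h4 := Finset.mem_range.1 (hJ.1 hi1)
              omega
            · exact hJ.2 i hi1 j hj hj1
    have h3 : (1 - xx N p κ t J) * g J ≤ (1 - xx N p κ t J) * g' J :=
      mul_le_mul_of_nonneg_left h1 (by linarith)
    linarith

theorem EE_congr (hκ : 0 ≤ κ) (hκ1 : κ < 1) (hp : ∀ t, 0 ≤ p t) (hN : ∀ i, ∀ j ∈ N i, j < i)
    (t : ℕ) (g g' : Finset ℕ → ℝ) (h : ∀ J, Ind N t J → g J = g' J) :
    EE N p κ t g = EE N p κ t g' :=
  le_antisymm (EE_mono hκ hκ1 hp hN t g g' fun J hJ => (h J hJ).le)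
    (EE_mono hκ hκ1 hp hN t g' g fun J hJ => (h J hJ).ge)

theorem EE_add (t : ℕ) : ∀ (g g' : Finset ℕ → ℝ),
    EE N p κ t (fun J => g J + g' J) = EE N p κ t g + EE N p κ t g' := by
  induction t with
  | zero => intro g g'; rfl
  | succ t ih =>
    intro g g'
    show EE N p κ t _ = EE N p κ t _ + EE N p κ t _
    rw [← ih]
    congr 1
    funext J
    ring

theorem EE_const_mul (t : ℕ) : ∀ (c : ℝ) (g : Finset ℕ → ℝ),
    EE N p κ t (fun J => c * g J) = c * EE N p κ t g := by
  induction t with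
  | zero => intro c g; rfl
  | succ t ih =>
    intro c g
    show EE N p κ t _ = c * EE N p κ t _
    rw [← ih]
    congr 1
    funext J
    ring

theorem EE_const (t : ℕ) : ∀ (c : ℝ), EE N p κ t (fun _ => c) = c := by
  induction t with
  | zero => intro c; rfl
  | succ t ih =>
    intro c
    show EE N p κ t _ = c
    rw [← ih c]
    congr 1
    funext J
    rw [ih c]
    ring

theorem EE_sum {ι : Type*} (t : ℕ) (s : Finset ι) (g : ι → Finset ℕ → ℝ) :
    EE N p κ t (fun J => ∑ i ∈ s, g i J) = ∑ i ∈ s, EE N p κ t (g i) := by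
  classical
  induction s using Finset.induction_on with
  | empty => simpa using EE_const (N := N) (p := p) (κ := κ) t 0
  | insert a s ha ih =>
    rw [Finset.sum_insert ha, ← ih, ← EE_add]
    congr 1
    funext J
    rw [Finset.sum_insert ha]

/-- A function of the first `s` choices. -/
theorem EE_stable (hκ : 0 ≤ κ) (hκ1 : κ < 1) (hp : ∀ t, 0 ≤ p t) (hN : ∀ i, ∀ j ∈ N i, j < i)
    (s : ℕ) (g : Finset ℕ → ℝ) (hg : ∀ t, s ≤ t → ∀ J, J ⊆ range t → g (insert t J) = g J)
    (t : ℕ) (hst : s ≤ t) : EE N p κ t g = EE N p κ s g := by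
  induction t, hst using Nat.le_induction with
  | base => rfl
  | succ t hst ih =>
    rw [← ih]
    show EE N p κ t _ = _
    refine EE_congr hκ hκ1 hp hN t _ _ fun J hJ => ?_
    rw [hg t hst J hJ.1]
    ring

/-- The martingale property. -/
theorem EE_mart (hκ : 0 ≤ κ) (hκ1 : κ < 1) (hp : ∀ t, 0 ≤ p t) (hN : ∀ i, ∀ j ∈ N i, j < i)
    (A : Finset ℕ) (s : ℕ) (g : Finset ℕ → ℝ)
    (hg : ∀ t, s ≤ t → ∀ J, J ⊆ range t → g (insert t J) = g J)
    (t : ℕ) (hst : s ≤ t) :
    EE N p κ t (fun J => MM N p κ A t J * g J) = EE N p κ s (fun J => MM N p κ A s J * g J) := by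
  induction t, hst using Nat.le_induction with
  | base => rfl
  | succ t hst ih =>
    rw [← ih]
    show EE N p κ t _ = _
    refine EE_congr hκ hκ1 hp hN t _ _ fun J hJ => ?_
    have htJ := not_mem_of_subset_range hJ.1
    have hx1 := xx_le (N := N) (p := p) hκ t J
    have hne : 1 - xx N p κ t J ≠ 0 := by
      have : 0 < 1 - xx N p κ t J := by linarith
      exact this.ne'
    beta_reduce
    rw [hg t hst J hJ.1, MM_succ, MM_succ, MM_local A t (insert t J) J (mem_insert_lt t J)]
    by_cases hA : t ∈ A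
    · simp only [hA, if_true, Finset.mem_insert_self, htJ, if_false]
      field_simp
      ring
    · simp only [hA, if_false]
      ring

/-- The product of two martingales. -/
theorem EE_pair (hκ : 0 ≤ κ) (hκ1 : κ < 1) (hp : ∀ t, 0 ≤ p t) (hN : ∀ i, ∀ j ∈ N i, j < i)
    (A B : Finset ℕ) (t : ℕ) :
    EE N p κ t (fun J => MM N p κ A t J * MM N p κ B t J)
      ≤ ∏ v ∈ range t, (if v ∈ A ∩ B then (1 - κ)⁻¹ else 1) := by
  induction t with
  | zero =>
    show MM N p κ A 0 ∅ * MM N p κ B 0 ∅ ≤ _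
    simp [MM]
  | succ t ih =>
    rw [Finset.prod_range_succ]
    have hκ' : 0 < 1 - κ := by linarith
    have hc : 0 ≤ (if t ∈ A ∩ B then (1 - κ)⁻¹ else 1) := by
      split_ifs
      · exact (inv_pos.2 hκ').le
      · exact zero_le_one
    have step : EE N p κ (t + 1) (fun J => MM N p κ A (t + 1) J * MM N p κ B (t + 1) J)
        ≤ EE N p κ t (fun J => (if t ∈ A ∩ B then (1 - κ)⁻¹ else 1) *
          (MM N p κ A t J * MM N p κ B t J)) := by
      show EE N p κ t _ ≤ _
      refine EE_mono hκ hκ1 hp hN t _ _ fun J hJ => ?_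
      have htJ := not_mem_of_subset_range hJ.1
      have hx1 := xx_le (N := N) (p := p) hκ t J
      have hpos : 0 < 1 - xx N p κ t J := by linarith
      have hne : 1 - xx N p κ t J ≠ 0 := hpos.ne'
      have hA0 := MM_nonneg (N := N) (p := p) hκ hκ1 A t J
      have hB0 := MM_nonneg (N := N) (p := p) hκ hκ1 B t J
      beta_reduce
      rw [MM_succ, MM_succ, MM_succ, MM_succ, MM_local A t (insert t J) J (mem_insert_lt t J),
        MM_local B t (insert t J) J (mem_insert_lt t J)]
      by_cases hA : t ∈ A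
      · by_cases hB : t ∈ B
        · simp only [hA, hB, Finset.mem_inter, and_self, if_true, Finset.mem_insert_self, htJ,
            if_false]
          have e : xx N p κ t J * (MM N p κ A t J * 0 * (MM N p κ B t J * 0)) +
              (1 - xx N p κ t J) * (MM N p κ A t J * (1 - xx N p κ t J)⁻¹ *
                (MM N p κ B t J * (1 - xx N p κ t J)⁻¹)) =
              (1 - xx N p κ t J)⁻¹ * (MM N p κ A t J * MM N p κ B t J) := by
            field_simp
            ring
          rw [e]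
          refine mul_le_mul_of_nonneg_right ?_ (mul_nonneg hA0 hB0)
          exact inv_anti₀ hκ' (by linarith)
        · simp only [hA, hB, Finset.mem_inter, and_false, if_true, Finset.mem_insert_self, htJ,
            if_false]
          refine le_of_eq ?_
          field_simp
          ring
      · by_cases hB : t ∈ B
        · simp only [hA, hB, Finset.mem_inter, false_and, if_true, Finset.mem_insert_self, htJ,
            if_false]
          refine le_of_eq ?_
          field_simp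
          ring
        · simp only [hA, hB, Finset.mem_inter, false_and, if_false]
          refine le_of_eq ?_
          ring
    refine step.trans ?_
    rw [EE_const_mul, mul_comm]
    exact mul_le_mul_of_nonneg_right ih hc

theorem MM_le_exp (hκ : 0 ≤ κ) (hκ1 : κ < 1) (hp : ∀ t, 0 ≤ p t) (A : Finset ℕ) (t : ℕ)
    (hA : ∀ v ∈ A, v < t) (J : Finset ℕ) :
    MM N p κ A t J ≤ Real.exp ((∑ v ∈ A, xx N p κ v J) / (1 - κ)) := by
  have hκ' : 0 < 1 - κ := by linarith
  have h1 : MM N p κ A t J ≤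
      ∏ v ∈ range t, (if v ∈ A then Real.exp (xx N p κ v J / (1 - κ)) else 1) := by
    unfold MM
    refine Finset.prod_le_prod ?_ ?_
    · intro v _
      have := xx_le (N := N) (p := p) hκ v J
      split_ifs
      · exact le_refl 0
      · exact inv_nonneg.2 (by linarith)
      · exact zero_le_one
    · intro v _
      have hx0 := xx_nonneg (N := N) hκ hκ1 hp v J
      have hx1 := xx_le (N := N) (p := p) hκ v J
      have hpos : 0 < 1 - xx N p κ v J := by linarith
      split_ifs
      · exact (Real.exp_pos _).le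
      · have e : (1 - xx N p κ v J)⁻¹ = 1 + xx N p κ v J / (1 - xx N p κ v J) := by
          field_simp
          ring
        rw [e]
        have h2 : xx N p κ v J / (1 - xx N p κ v J) ≤ xx N p κ v J / (1 - κ) :=
          div_le_div_of_nonneg_left hx0 hκ' (by linarith)
        have h3 := Real.add_one_le_exp (xx N p κ v J / (1 - κ))
        linarith
      · exact le_refl 1
  refine h1.trans (le_of_eq ?_)
  rw [Finset.prod_ite, Finset.prod_const_one, mul_one, ← Real.exp_sum, Finset.sum_div]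
  congr 1
  refine Finset.sum_congr ?_ fun _ _ => rfl
  ext v
  simp only [Finset.mem_filter, Finset.mem_range]
  exact ⟨fun h => h.2, fun h => ⟨hA v h, h⟩⟩

theorem EE_MM (hκ : 0 ≤ κ) (hκ1 : κ < 1) (hp : ∀ t, 0 ≤ p t) (hN : ∀ i, ∀ j ∈ N i, j < i)
    (A : Finset ℕ) (t : ℕ) : EE N p κ t (fun J => MM N p κ A t J) = 1 := by
  have h := EE_mart hκ hκ1 hp hN A 0 (fun _ => 1) (fun _ _ _ _ => rfl) t (Nat.zero_le t)
  simp only [mul_one] at h
  rw [h]
  show MM N p κ A 0 ∅ = 1
  simp [MM]

theorem EE_cross (hκ : 0 ≤ κ) (hκ1 : κ < 1) (hp : ∀ t, 0 ≤ p t) (hN : ∀ i, ∀ j ∈ N i, j < i)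
    (i v : ℕ) (hv : v ∈ N i) :
    EE N p κ i (fun J => MM N p κ (N i) i J * xx N p κ v J)
      ≤ min κ (p v * ((1 - κ)⁻¹) ^ (N i ∩ N v).card) := by
  have hvi := hN i v hv
  refine le_min ?_ ?_
  · have h1 : EE N p κ i (fun J => MM N p κ (N i) i J * xx N p κ v J)
        ≤ EE N p κ i (fun J => κ * MM N p κ (N i) i J) := by
      refine EE_mono hκ hκ1 hp hN i _ _ fun J _ => ?_
      rw [mul_comm]
      exact mul_le_mul_of_nonneg_right (xx_le hκ v J) (MM_nonneg hκ hκ1 _ _ _)
    rw [EE_const_mul, EE_MM hκ hκ1 hp hN, mul_one] at h1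
    exact h1
  · rw [EE_mart hκ hκ1 hp hN (N i) v (fun J => xx N p κ v J) ?_ i hvi.le]
    · have h1 : EE N p κ v (fun J => MM N p κ (N i) v J * xx N p κ v J)
          ≤ EE N p κ v (fun J => p v * (MM N p κ (N i) v J * MM N p κ (N v) v J)) := by
        refine EE_mono hκ hκ1 hp hN v _ _ fun J _ => ?_
        have h2 := mul_le_mul_of_nonneg_left (xx_le_MM (N := N) hκ hκ1 hp v J)
          (MM_nonneg (N := N) (p := p) hκ hκ1 (N i) v J)
        linarith
      refine h1.trans ?_
      rw [EE_const_mul]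
      refine mul_le_mul_of_nonneg_left ?_ (hp v)
      refine (EE_pair hκ hκ1 hp hN (N i) (N v) v).trans (le_of_eq ?_)
      rw [Finset.prod_ite, Finset.prod_const_one, mul_one, Finset.prod_const]
      congr 2
      ext w
      simp only [Finset.mem_filter, Finset.mem_range, Finset.mem_inter]
      exact ⟨fun h => h.2, fun h => ⟨hN v w h.2, h⟩⟩
    · intro t ht J _
      refine xx_local v _ _ fun w hw => ?_
      exact mem_insert_lt t J w (lt_of_lt_of_le hw ht)

theorem prob_bound (hκ : 0 < κ) (hκ1 : κ < 1) (hp : ∀ t, 0 ≤ p t)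
    (hN : ∀ i, ∀ j ∈ N i, j < i) (lam : ℝ) (i : ℕ) (hpi : 0 < p i) (hpκ : p i < κ)
    (hsum : ∑ v ∈ N i, min κ (p v * ((1 - κ)⁻¹) ^ (N i ∩ N v).card)
      ≤ lam * ((1 - κ) * Real.log (κ / p i))) :
    (1 - lam) * p i ≤ EE N p κ i (fun J => xx N p κ i J) := by
  have hκ' : 0 < 1 - κ := by linarith
  have hL : 0 < Real.log (κ / p i) := Real.log_pos ((one_lt_div hpi).2 hpκ)
  set D : ℝ := (1 - κ) * Real.log (κ / p i) with hD
  have hDpos : 0 < D := mul_pos hκ' hL
  have hpt : ∀ J, Ind N i J → p i * MM N p κ (N i) i J +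
      (-(p i / D)) * ∑ v ∈ N i, MM N p κ (N i) i J * xx N p κ v J ≤ xx N p κ i J := by
    intro J hJ
    have hM0 := MM_nonneg (N := N) (p := p) hκ.le hκ1 (N i) i J
    have hS0 : 0 ≤ ∑ v ∈ N i, xx N p κ v J :=
      Finset.sum_nonneg fun v _ => xx_nonneg hκ.le hκ1 hp v J
    rw [← Finset.mul_sum, xx_eq i J]
    split_ifs with h
    · have : 0 ≤ p i / D * (MM N p κ (N i) i J * ∑ v ∈ N i, xx N p κ v J) :=
        mul_nonneg (div_pos hpi hDpos).le (mul_nonneg hM0 hS0)
      linarith
    · push Not at h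
      have h1 := MM_le_exp (N := N) hκ.le hκ1 hp (N i) i (hN i) J
      have h2 : κ / p i < Real.exp ((∑ v ∈ N i, xx N p κ v J) / (1 - κ)) := by
        refine lt_of_lt_of_le ?_ h1
        rw [div_lt_iff₀ hpi]
        linarith
      have h3 : Real.log (κ / p i) < (∑ v ∈ N i, xx N p κ v J) / (1 - κ) :=
        (Real.log_lt_iff_lt_exp (div_pos hκ hpi)).2 h2
      rw [lt_div_iff₀ hκ'] at h3
      have h4 : D ≤ ∑ v ∈ N i, xx N p κ v J := by rw [hD]; linarith
      have h5 : 1 ≤ (∑ v ∈ N i, xx N p κ v J) / D := by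
        rw [le_div_iff₀ hDpos]
        linarith
      have h6 : p i * MM N p κ (N i) i J * 1 ≤
          p i * MM N p κ (N i) i J * ((∑ v ∈ N i, xx N p κ v J) / D) :=
        mul_le_mul_of_nonneg_left h5 (mul_nonneg hpi.le hM0)
      have h7 : p i * MM N p κ (N i) i J * ((∑ v ∈ N i, xx N p κ v J) / D) =
          p i / D * (MM N p κ (N i) i J * ∑ v ∈ N i, xx N p κ v J) := by
        field_simp
      linarith
  have h1 := EE_mono hκ.le hκ1 hp hN i _ _ hpt
  rw [EE_add, EE_const_mul, EE_const_mul, EE_sum, EE_MM hκ.le hκ1 hp hN] at h1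
  have h2 : ∑ v ∈ N i, EE N p κ i (fun J => MM N p κ (N i) i J * xx N p κ v J) ≤ lam * D :=
    (Finset.sum_le_sum fun v hv => EE_cross hκ.le hκ1 hp hN i v hv).trans hsum
  have h3 : p i / D * ∑ v ∈ N i, EE N p κ i (fun J => MM N p κ (N i) i J * xx N p κ v J) ≤
      p i / D * (lam * D) := mul_le_mul_of_nonneg_left h2 (div_pos hpi hDpos).le
  have h4 : p i / D * (lam * D) = lam * p i := by
    field_simp
  linarith

/-- The distribution of the random independent set. -/
theorem exists_distribution (n : ℕ) (hκ : 0 < κ) (hκ1 : κ < 1) (hp : ∀ t, 0 ≤ p t)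
    (hN : ∀ i, ∀ j ∈ N i, j < i) (lam : ℝ) (hpi : ∀ i < n, 0 < p i) (hpκ : ∀ i < n, p i < κ)
    (hsum : ∀ i < n, ∑ v ∈ N i, min κ (p v * ((1 - κ)⁻¹) ^ (N i ∩ N v).card)
      ≤ lam * ((1 - κ) * Real.log (κ / p i))) :
    ∃ w : Finset ℕ → ℝ, (∀ J, 0 ≤ w J) ∧ (∀ J, w J ≠ 0 → Ind N n J) ∧
      ∑ J ∈ (range n).powerset, w J = 1 ∧
      ∀ i < n, (1 - lam) * p i ≤ ∑ J ∈ (range n).powerset.filter (fun J => i ∈ J), w J := by
  refine ⟨fun J => EE N p κ n (fun J' => if J' = J then 1 else 0), ?_, ?_, ?_, ?_⟩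
  · intro J
    have h := EE_mono hκ.le hκ1 hp hN n (fun _ => 0) (fun J' => if J' = J then 1 else 0)
      (fun J' _ => by beta_reduce; split_ifs <;> norm_num)
    rwa [EE_const] at h
  · intro J hJ
    by_contra hI
    refine hJ ?_
    have h := EE_congr hκ.le hκ1 hp hN n (fun J' => if J' = J then 1 else 0) (fun _ => 0)
      (fun J' hJ' => by
        have hne : J' ≠ J := fun e => hI (e ▸ hJ')
        simp [hne])
    beta_reduce
    rw [h, EE_const]
  · rw [← EE_sum]
    have h := EE_congr hκ.le hκ1 hp hN n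
      (fun J' => ∑ J ∈ (range n).powerset, if J' = J then (1 : ℝ) else 0) (fun _ => 1)
      (fun J' hJ' => by
        beta_reduce
        rw [Finset.sum_ite_eq, if_pos (Finset.mem_powerset.2 hJ'.1)])
    rw [h, EE_const]
  · intro i hi
    refine (prob_bound hκ hκ1 hp hN lam i (hpi i hi) (hpκ i hi) (hsum i hi)).trans ?_
    rw [← EE_sum]
    have h := EE_congr hκ.le hκ1 hp hN n
      (fun J' => ∑ J ∈ (range n).powerset.filter (fun J => i ∈ J), if J' = J then (1 : ℝ) else 0)
      (fun J' => if i ∈ J' then (1 : ℝ) else 0)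
      (fun J' hJ' => by
        beta_reduce
        rw [Finset.sum_ite_eq]
        simp only [Finset.mem_filter, Finset.mem_powerset, hJ'.1, true_and])
    rw [h]
    have hst := EE_stable hκ.le hκ1 hp hN (i + 1) (fun J' => if i ∈ J' then (1 : ℝ) else 0)
      (fun t ht J _ => by
        beta_reduce
        simp only [mem_insert_lt t J i (by omega)]) n hi
    rw [hst]
    show _ ≤ EE N p κ i _
    refine EE_mono hκ.le hκ1 hp hN i _ _ fun J hJ => ?_
    have htJ := not_mem_of_subset_range hJ.1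
    simp [htJ]

end Pool.Agent.Helper60.HC
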