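import Pool.Agent.Helper60.HC.GoalsP

/-!
# Project HC: the trivial case `D = 0` of P1, P2
-/

set_option autoImplicit false

open MvPolynomial

namespace Pool.Agent.Helper60.HC

open WeierstrassCurve Height Height.AdmissibleAbsValues
open Pool.Agent.Helper29.BL Pool.Agent.Helper92.Ru Pool.Agent.Helper42.SG
open Pool.Agent.Helper5.UN (hv CodimGT cH)

noncomputable section

/-- degree `0`: the height with respect to the centre is constant, there are no aligned exceptional points -/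
theorem d0 {K : Type} [Field K] [NumberField K] [DecidableEq K] {σ : Type} [Fintype σ]
    {W : σ → Affine K} (H : ∀ i, (W i).Point → ℝ) {J : Type} (f : J → MvPolynomial σ K)
    (hf : ∀ j i, degreeOf i (f j) ≤ 0) (ε : ℝ) (hε : 0 < ε) :
    ∃ K0 : ℝ, ∀ (K0' : ℝ), K0 ≤ K0' → ∀ (n : ℕ) (θ : ℝ) (x : Fin (n + 1) → ∀ i, (W i).Point)
      (x0 : ∀ i, (W i).Point) (e : Fin (n + 1) → ℕ) (T : ℝ), ¬ Al H 0 f (n + 1) θ ε K0' x x0 e T := by
  classical
  have hc : ∀ x : σ → K, cH 0 f x = cH 0 f 0 := by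
    intro x
    have h1 : ∀ (j : J) (y : σ → K), eval y (f j) = coeff 0 (f j) := by
      intro j y
      have h2 : f j = C (coeff 0 (f j)) := by
        rw [← totalDegree_eq_zero_iff_eq_C, totalDegree_eq_zero_iff]
        intro m hm i
        have := (degreeOf_le_iff (n := i) (d := 0)).1 (hf j i) m hm
        omega
      rw [h2, eval_C, coeff_C]
      simp
    unfold cH
    simp only [h1, pow_zero]
  refine ⟨cH 0 f 0 / ε + 1, fun K0' hK n θ x x0 e T hA => ?_⟩
  have h1 := hA.exc 0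
  have h2 := hA.bigT 0
  rw [hc] at h1
  have h3 : (0 : ℝ) < 4 ^ e 0 := by positivity
  have h4 : ε * (K0' * 4 ^ e 0) ≤ 4 ^ e 0 * cH 0 f 0 :=
    (mul_le_mul_of_nonneg_left h2 hε.le).trans h1
  have h5 : ε * K0' ≤ cH 0 f 0 := by
    have : (ε * K0') * 4 ^ e 0 ≤ cH 0 f 0 * 4 ^ e 0 := by linarith
    exact le_of_mul_le_mul_right this h3
  have h6 : cH 0 f 0 / ε + 1 ≤ cH 0 f 0 / ε := by
    refine hK.trans ?_
    rw [le_div_iff₀ hε]
    linarith
  linarith

end

end Pool.Agent.Helper60.HC
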