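import Pool.Agent.Helper42.SG.GoalsG
import Pool.Agent.Helper5.UN.Defs

/-!
# Project HC (MP_a41896_nt): centres of dimension `≤ m/2 - 1` in products of `m` elliptic curves

Definitions. The paper is `PAPER.md` of this folder (sections quoted below); it builds on project SG
(`Pool/Agent/Helper42/SG`, paper `MP_a41896_gcd_helper42.md`). All the elliptic curves are arbitrary.

`ι` = the finite set of the law variables (`Fin n × Fin m`: block `j`, factor `i`), `Fin m` (or `σ`) = the set of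
the factors, `bs h` = the factor of the variable `h`. The reference point `x_0` has the coordinates `X0`, `Ψ0`.
-/

set_option autoImplicit false

open MvPolynomial

namespace Pool.Agent.Helper60.HC

open WeierstrassCurve Height Height.AdmissibleAbsValues
open Pool.Agent.Helper29.BL Pool.Agent.Helper92.Ru Pool.Agent.Helper42.SG
open Pool.Agent.Helper5.UN (hv CodimGT cH)

noncomputable section

/-! ## Centres -/

section centre

variable {K : Type} [Field K]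

/-- the form of multidegree `(E, .., E)` of `g` in the chart `a`: `X_i ↦ ζ_i` (`a i = true`), or `X_i ↦ 1/ζ_i`
multiplied by `ζ_i ^ E` (`a i = false`) -/
def ch {m : ℕ} (a : Fin m → Bool) (E : ℕ) (g : MvPolynomial (Fin m) K) : MvPolynomial (Fin m) K :=
  hv C (fun _ => E) g fun i => if a i = true then ![X i, 1] else ![1, X i]

/-- the exponents with entries `≤ E` -/
abbrev bx (m E : ℕ) : Finset (Fin m → ℕ) := Fintype.piFinset fun _ => Finset.range (E + 1)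

/-- `ρ_v(x) = min(1, max_j |f_j(x)|_v / (∏ M_v(x_i))^D)` -/
def rho {m : ℕ} {J : Type} (f : J → MvPolynomial (Fin m) K) (D : ℕ) (v : AbsoluteValue K ℝ)
    (x : Fin m → K) : ℝ :=
  min 1 ((⨆ j, v (eval x (f j))) / (∏ i, Mv v (x i)) ^ D)

/-- Sec. 2.2: linear forms `r_t` and polynomials `E_t`, `t < τ`, with `P = ∑ r_t(P) E_t` for `P` of degrees `≤ N`; the
`E_t`, `t ∉ bad`, are small near the centre. -/
structure CenD [NumberField K] {m : ℕ} {J : Type} (f : J → MvPolynomial (Fin m) K) (D : ℕ)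
    (B : AbsoluteValue K ℝ → ℝ) (Dn N k τ : ℕ) (bad : Finset (Fin τ))
    (r : Fin τ → (Fin m → ℕ) → K) (E : Fin τ → MvPolynomial (Fin m) K) : Prop where
  bd : ∀ t g v, v (r t g) ≤ B v ^ (N + 1)
  int : ∀ t g, _root_.IsIntegral ℤ ((Dn : K) ^ (N + 1) * r t g)
  exp : ∀ g ∈ bx m N, (∏ i, X i ^ g i : MvPolynomial (Fin m) K) = ∑ t, C (r t g) * E t
  nrm : ∀ (v : AbsoluteValue K ℝ) (A : Type) [CommRing A] [Algebra K A] (Nr : A → ℝ → Prop),
    NFr v Nr → ∀ (x : Fin m → A) (a : Fin m → ℝ) (ρ : ℝ), (∀ i, 1 ≤ a i) → (∀ i, Nr (x i) (a i)) →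
    0 < ρ → ρ ≤ 1 → (∀ j, Nr (aeval x (f j)) (ρ * (∏ i, a i) ^ D)) → ∀ t,
    Nr (aeval x (E t)) (B v ^ (N + 1) * (∏ i, a i) ^ N * if t ∈ bad then 1 else ρ ^ k)

end centre

/-! ## The auxiliary function (sec. 4) -/

section aux

variable {A : Type} [CommRing A]

/-- the index set of the unknowns -/
abbrev HIdx (ι σ : Type) (M δ : ℕ) (e : ι → ℕ) : Type :=
  (∀ h : ι, Fin (4 ^ e h) × Fin (M + 1)) × (σ → Fin δ)

/-- the law of the variable `h` -/
def hlaw {ι σ : Type} (W : σ → WeierstrassCurve A) (bs : ι → σ) (e : ι → ℕ) (lam : ι → Bool)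
    (X Ψ : ι → A) (X0 Ψ0 : σ → A) (h : ι) : A × A :=
  law (W (bs h)) (e h) (lam h) (X h) (X0 (bs h)) (Ψ h * Ψ0 (bs h))

/-- the function of the variable `h` with the indices `(l, k)` -/
def hblk {ι σ : Type} (W : σ → WeierstrassCurve A) (bs : ι → σ) (M : ℕ) (e : ι → ℕ)
    (lam : ι → Bool) (X Ψ : ι → A) (X0 Ψ0 : σ → A) (h : ι) (l k : ℕ) : A :=
  X h ^ l * ((hlaw W bs e lam X Ψ X0 Ψ0 h).1 ^ (M - k) * (hlaw W bs e lam X Ψ X0 Ψ0 h).2 ^ k)

/-- the function `P^λ` -/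
def PA {ι σ : Type} [Fintype ι] [DecidableEq ι] [Fintype σ] [DecidableEq σ]
    (W : σ → WeierstrassCurve A) (bs : ι → σ) (M δ : ℕ) (e : ι → ℕ) (c : HIdx ι σ M δ e → A)
    (lam : ι → Bool) (X Ψ : ι → A) (X0 Ψ0 : σ → A) : A :=
  ∑ α : HIdx ι σ M δ e, c α *
    (∏ h : ι, hblk W bs M e lam X Ψ X0 Ψ0 h (α.1 h).1.val (α.1 h).2.val) *
    ∏ i : σ, X0 i ^ (α.2 i).val

/-- the curves over the algebra `A` -/
def mapH {K : Type} [Field K] (A : Type) [CommRing A] [Algebra K A] {σ : Type}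
    (W : σ → Affine K) : σ → WeierstrassCurve A :=
  fun i => (W i).map (algebraMap K A)

/-- the `(X h, Ψ h)` are points of the curves `W (bs h)` over `A` (`x`-coordinates and `ψ`) -/
def OnH {K : Type} [Field K] {A : Type} [CommRing A] [Algebra K A] {ι σ : Type}
    (W : σ → Affine K) (bs : ι → σ) (X Ψ : ι → A) : Prop :=
  ∀ h, Ψ h ^ 2 = Bf (mapH A W (bs h)) (X h)

/-- `∑_j q_j` -/
def sqH {n : ℕ} (e : Fin n → ℕ) : ℕ := ∑ j, 4 ^ e j

/-- the exponents of the variables `(j, i)` -/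
abbrev ee {n : ℕ} (m : ℕ) (e : Fin n → ℕ) : Fin n × Fin m → ℕ := fun h => e h.1

/-- the indices of one block -/
abbrev BIx (m M e : ℕ) : Type := Fin m → Fin (4 ^ e) × Fin (M + 1)

/-- from the indices of the blocks to those of the variables -/
def unc {n m M : ℕ} {e : Fin n → ℕ} (α : ∀ j, BIx m M (e j)) :
    ∀ h : Fin n × Fin m, Fin (4 ^ ee m e h) × Fin (M + 1) := fun h => α h.1 h.2

end aux

section key

variable {K : Type} [Field K] [NumberField K]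

/-- Sec. 3: there are `S` linear forms `ν_s` on the polynomials of degrees `≤ E` with integral coefficients of
house `≤ exp A`, such that a polynomial killed by them vanishes at `ξ0`. -/
def RED {m : ℕ} (E S : ℕ) (A : ℝ) (ξ0 : Fin m → K) : Prop :=
  ∃ ν : Fin S → (Fin m → ℕ) → K,
    (∀ s g, _root_.IsIntegral ℤ (ν s g) ∧ NumberField.house (ν s g) ≤ Real.exp A) ∧
    ∀ p : (Fin m → ℕ) → K, (∀ s, ∑ g ∈ bx m E, ν s g * p g = 0) →
      ∑ g ∈ bx m E, p g * ∏ i, ξ0 i ^ g i = 0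

/-- Sec. 4.1: the expansion of the functions of one block, exponent `e`, laws `lam`. Terms `t < τ`: parity `μ t`,
polynomial `E t`, coefficient `∑_g CC t α g X0^g`. -/
structure BlkD {m : ℕ} {J : Type} (W : Fin m → Affine K) (f : J → MvPolynomial (Fin m) K)
    (D M κ e : ℕ) (lam : Fin m → Bool) (B : AbsoluteValue K ℝ → ℝ) (Dn τ : ℕ)
    (bad : Finset (Fin τ)) (μ : Fin τ → Fin m → Fin 2) (E : Fin τ → MvPolynomial (Fin m) K)
    (CC : Fin τ → BIx m M e → (Fin m → ℕ) → K) : Prop where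
  bd : ∀ t α g v, v (CC t α g) ≤ B v ^ 4 ^ e
  int : ∀ t α g, _root_.IsIntegral ℤ ((Dn : K) ^ 4 ^ e * CC t α g)
  deg : ∀ t α g, CC t α g ≠ 0 → ∀ i, g i + 2 * (μ t i).val ≤ 2 * M
  exp : ∀ (A : Type) [CommRing A] [Algebra K A] (X Ψ X0 Ψ0 : Fin m → A), OnH W id X Ψ →
    OnH W id X0 Ψ0 → ∀ α : BIx m M e,
    ∏ i, hblk (mapH A W) id M (fun _ => e) lam X Ψ X0 Ψ0 i (α i).1.val (α i).2.val =
      ∑ t, (∏ i, (Ψ i * Ψ0 i) ^ (μ t i).val) * aeval X (E t) *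
        ∑ g ∈ bx m (2 * M), algebraMap K A (CC t α g) * ∏ i, X0 i ^ g i
  nrm : ∀ (v : AbsoluteValue K ℝ) (A : Type) [CommRing A] [Algebra K A] (Nr : A → ℝ → Prop),
    NFr v Nr → ∀ (x : Fin m → A) (a : Fin m → ℝ) (ρ : ℝ), (∀ i, 1 ≤ a i) → (∀ i, Nr (x i) (a i)) →
    0 < ρ → ρ ≤ 1 → (∀ j, Nr (aeval x (f j)) (ρ * (∏ i, a i) ^ D)) → ∀ t,
    Nr (aeval x (E t)) (B v ^ 4 ^ e * (∏ i, a i) ^ (2 * 4 ^ e * M + 4 ^ e) *
      if t ∈ bad then 1 else ρ ^ (κ * 4 ^ e))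

/-- the conditions of sec. 4.1 on the unknowns -/
def CondH {m n M δ : ℕ} (e : Fin n → ℕ) (ξ0 : Fin m → K) (τ : Fin n → (Fin m → Bool) → ℕ)
    (bad : ∀ j l, Finset (Fin (τ j l)))
    (CC : ∀ j l, Fin (τ j l) → BIx m M (e j) → (Fin m → ℕ) → K)
    (c : HIdx (Fin n × Fin m) (Fin m) M δ (ee m e) → K) : Prop :=
  ∀ j l, ∀ t ∈ bad j l, ∀ α0 : ∀ j, BIx m M (e j),
    ∑ x : BIx m M (e j), ∑ β : Fin m → Fin δ, c (unc (Function.update α0 j x), β) *
      ∑ g ∈ bx m (2 * M), CC j l t x g * ∏ i, ξ0 i ^ (g i + (β i).val) = 0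

/-- the bound in the key inequality (4.3) -/
def keyH (n m M δ κ : ℕ) (e : Fin n → ℕ) (a : Fin n × Fin m → ℝ) (ρ : Fin n → ℝ)
    (a0 : Fin m → ℝ) : ℝ :=
  (∏ j, (∏ i, a (j, i)) ^ (2 * 4 ^ e j * M + 4 ^ e j + 2) * ρ j ^ (κ * 4 ^ e j)) *
    (∏ i, a0 i) ^ (2 * n * M + δ)

/-- the key inequality (4.3) in every norm frame, for every law vector -/
def KEYH {m n : ℕ} {J : Type} (W : Fin m → Affine K) (f : J → MvPolynomial (Fin m) K)
    (D M δ κ : ℕ) (e : Fin n → ℕ) (c : HIdx (Fin n × Fin m) (Fin m) M δ (ee m e) → K)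
    (ξ0 ψ0 : Fin m → K) (B : AbsoluteValue K ℝ → ℝ) : Prop :=
  ∀ (v : AbsoluteValue K ℝ) (A : Type) [CommRing A] [Algebra K A] (Nr : A → ℝ → Prop), NFr v Nr →
    ∀ (X Ψ : Fin n × Fin m → A) (a : Fin n × Fin m → ℝ) (ρ : Fin n → ℝ) (s b : ℝ),
      OnH W Prod.snd X Ψ → (∀ h, 1 ≤ a h) → 1 ≤ b → (∀ h, Nr (X h) (a h)) →
      (∀ h, Nr (Ψ h) (b * a h ^ 2)) → (∀ i, v (ψ0 i) ≤ b * Mv v (ξ0 i) ^ 2) →
      (∀ j, 0 < ρ j ∧ ρ j ≤ 1) →
      (∀ j t, Nr (aeval (fun i => X (j, i)) (f t)) (ρ j * (∏ i, a (j, i)) ^ D)) →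
      (∀ α, v (c α) ≤ s) → ∀ lam : Fin n × Fin m → Bool,
      Nr (PA (mapH A W) Prod.snd M δ (ee m e) (fun α => algebraMap K A (c α)) lam X Ψ
          (fun i => algebraMap K A (ξ0 i)) (fun i => algebraMap K A (ψ0 i)))
        (s * b ^ (2 * n * m) * B v ^ sqH e * keyH n m M δ κ e a ρ fun i => Mv v (ξ0 i))

/-- the partial degrees of the norm polynomial in the variables `(j, i)` -/
def dH (n m M : ℕ) (e : ℕ) : ℕ := 2 ^ (n * m) * ((2 * M + 1) * 4 ^ e)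

/-- the partial degrees of the norm polynomial in the coordinates of `x_0` -/
def d0H (n m M δ : ℕ) : ℕ := 2 ^ (n * m) * (2 * n * M + δ)

end key

/-! ## Taylor expansions -/

/-- `(X, Ψ)` is the Taylor expansion at `(ξ, ψ)`: `X_h = ξ_h + 4 ψ_h² τ_h`, `Ψ_h = ψ_h + ..` -/
structure TayH {K : Type} [Field K] {ι σ : Type} (W : σ → Affine K) (bs : ι → σ) (ξ ψ : ι → K)
    (X Ψ : ι → MvPowerSeries ι K) : Prop where
  onH : OnH W bs X Ψ
  eqX : ∀ h, X h = MvPowerSeries.C (ξ h) + MvPowerSeries.C (4 * ψ h ^ 2) * MvPowerSeries.X h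
  cst : ∀ h, MvPowerSeries.constantCoeff (Ψ h) = ψ h

/-! ## Points -/

section points

variable {K : Type} [Field K] [NumberField K] [DecidableEq K]

/-- a nonzero polynomial in the variables `X_i`, `i ∈ I`, of degrees `≤ D` and height `≤ A` vanishes at `x` -/
def LowI {m : ℕ} (I : Finset (Fin m)) (D : ℕ) (A : ℝ) (x : Fin m → K) : Prop :=
  ∃ g : MvPolynomial (Fin m) K, g ≠ 0 ∧ (∀ i, g.degreeOf i ≤ D) ∧ (∀ i, i ∉ I → g.degreeOf i = 0) ∧
    eval x g = 0 ∧ Real.log (PH g) ≤ A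

/-- points of `∏ W_i` -/
abbrev Pt {m : ℕ} (W : Fin m → Affine K) : Type := ∀ i, (W i).Point

/-- the `x`-coordinates -/
def xH {m : ℕ} {W : Fin m → Affine K} (z : Pt W) : Fin m → K := fun i => xc (z i)

/-- the coordinates `ψ` -/
def pH {m : ℕ} {W : Fin m → Affine K} (z : Pt W) : Fin m → K := fun i => ps (z i)

/-- `|z|²` -/
def nH {m : ℕ} {W : Fin m → Affine K} (H : ∀ i, (W i).Point → ℝ) (z : Pt W) : ℝ :=
  ∑ i, H i (z i)

/-- no coordinate is a 2-torsion point, and the point is not on the centre -/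
def Good {m : ℕ} {W : Fin m → Affine K} {J : Type} (f : J → MvPolynomial (Fin m) K)
    (z : Pt W) : Prop :=
  (∀ i, z i ≠ 0 ∧ ps (z i) ≠ 0) ∧ ∃ j, eval (xH z) (f j) ≠ 0

/-- the points `x_1, .., x_n` (`x 0, .., x (n-1)`) and `x_0` (`x n`) have growth `K0` and near directions -/
structure Near {m : ℕ} {W : Fin m → Affine K} (H : ∀ i, (W i).Point → ℝ) (n : ℕ) (θ K0 : ℝ)
    (x : ℕ → Pt W) (e : ℕ → ℕ) : Prop where
  big : K0 ≤ nH H (x 0)
  grow : ∀ j < n, K0 * nH H (x j) ≤ nH H (x (j + 1))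
  near : ∀ j < n, nH H ((2 ^ e j) • x j - x n) ≤ θ ^ 2 * nH H (x n)

end points

end

end Pool.Agent.Helper60.HC
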