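import Pool.Agent.Helper60.HC.Defs
import Pool.Agent.Helper76.SGA.Goals

/-!
# Project HC, module A (sections 2, 5.4, 6): algebra of the centre, separation of `x_0`, block Roth lemma

Every goal has its proof in the docstring; named goals may be hypotheses (`theorem t (h : S_..) .. : S_..`).
-/

set_option autoImplicit false

open MvPolynomial

namespace Pool.Agent.Helper60.HC

open WeierstrassCurve Height Height.AdmissibleAbsValues
open Pool.Agent.Helper29.BL Pool.Agent.Helper92.Ru Pool.Agent.Helper42.SG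
open Pool.Agent.Helper5.UN (hv CodimGT cH)
open Pool.Agent.Helper76.SGA (sepL)

noncomputable section

/-! ## Block Roth lemma (sec. 6) -/

/-- **RESG**. Elimination of the last variable `Y`, derivative with respect to ANY variable `V` involved in `f`
(also `V = Y`). No new mathematics: the landed proof of `Helper76.SGA.RESA` (`RES` from `SEP RNZ RDEG RHT RIX DDV`,
all landed, see `Helper76/SGA` for who proved them) with `V` arbitrary.
PROOF. `N = deg_Y f`, `g := Res (sepL f, sepL (pderiv V f)) N N`. Nonzero: RNZ (`F = sepL f` irreducible, `F ∤ sepL (pderiv V f)` by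
DDV, degree of `pderiv V f` in `Y` is `≤ N`). Degrees: RDEG. Height: RHT with `B = H W` (`N ≤ r_Y W ≤ H W`). Index: RIX with `τ' = τ/2`
(DDV: `pderiv V f` has index `≥ τ - 1 / r_V ≥ τ/2`), and `∑_{i < 2N} max 0 (τ/2 - i/r_Y) ≥ min (2N) (τ r_Y / 4) * (τ/4)`. -/
def S_RESG : Prop :=
  ∀ (k : Type) [Field k] [NumberField k] (m : ℕ), ∃ C : ℝ, 1 ≤ C ∧
    ∀ (r : Fin (m + 1) → ℕ) (ξ : Fin (m + 1) → k) (f : MvPolynomial (Fin (m + 1)) k)
      (H W τ : ℝ) (V : Fin (m + 1)), (∀ h, 1 ≤ r h ∧ (r h : ℝ) ≤ H) → 0 < W →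
      Irreducible f → (∀ h, (f.degreeOf h : ℝ) ≤ r h * W) → Real.log (PH f) ≤ H * W →
      0 < τ → IndGe r ξ τ f → 1 ≤ f.degreeOf (Fin.last m) → 1 ≤ f.degreeOf V →
      1 / (r V : ℝ) ≤ τ / 2 →
      ∃ g : MvPolynomial (Fin m) k, g ≠ 0 ∧
        (∀ h, g.degreeOf h ≤ 2 * f.degreeOf (Fin.last m) * f.degreeOf (Fin.castSucc h)) ∧
        Real.log (PH g) ≤ 2 * f.degreeOf (Fin.last m) * (C * H * W) ∧
        IndGe (fun h => r (Fin.castSucc h)) (fun h => ξ (Fin.castSucc h))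
          (min (2 * (f.degreeOf (Fin.last m) : ℝ)) (τ * r (Fin.last m) / 4) * (τ / 4)) g

/-- **BLM**. Block Roth lemma, blocks of `m` variables: variable `h < N` belongs to the block `h / m`. No hypothesis on the
heights of the coordinates. Hypotheses allowed: RESG, FAC (landed), REN (landed).
PROOF. Induction on `N` (for all `σ`). `N = 0`: FAC gives an irreducible polynomial in `0` variables, impossible.
`N + 1`: FAC: irreducible `f` with `InvW` for `C₁ H, σ₁, W₁` (new `W`). `Y` = last variable (index `N`), block `j* = N / m`, `d = d j*`.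
If `deg_Y f = 0`: `f` comes from `N` variables (REN), induction. Otherwise `1 ≤ N_Y = deg_Y f ≤ d W`.
(a) some variable `V` of a block `< j*` is involved: `1/d_V ≤ ω/d ≤ ω W ≤ σ₁ W/2` (`ω ≤ σ₁/2`).
(b) only variables of the block `j*` are involved. If `σ₁ W d < 2`: all degrees are `≤ d W < 2/σ₁`, `d log PH f ≤ d C₁ H W ≤ (2 C₁/σ₁) H`, and
`f(ξ) = 0` because the index is `≥ σ₁ W > 0` (the constant term of `shiftP ξ f` has weight `0`): rename the variables of the block to `Fin m`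
(`h ↦ h % m`; REN with `e i = m j* + i`, for a partial block extend by renaming into `Fin m`). If `σ₁ W d ≥ 2`: `V = Y`, `1/d ≤ σ₁ W/2`.
RESG with `τ = σ₁ W`: `g` in `N` variables, `W' = 2 N_Y W`: degrees `≤ r_h W'`, `log PH g ≤ C C₁ H W'`, index
`≥ min(2 N_Y, σ₁ W d/4) σ₁ W/4 ≥ min(2, σ₁/4) N_Y σ₁ W/4 = σ₃ W'`, `σ₃ = min(2, σ₁/4) σ₁/8`. Induction for `σ₃`. Take the maxima of `D`, `Kc` (times the
constants `C`) and the minimum of the `ω`. -/
def S_BLM : Prop :=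
  ∀ (m N : ℕ), 1 ≤ m → ∀ (k : Type) [Field k] [NumberField k] (σ : ℝ), 0 < σ →
    ∃ (D : ℕ) (Kc ω : ℝ), 1 ≤ Kc ∧ 0 < ω ∧ ω ≤ 1 ∧
    ∀ (d : ℕ → ℕ) (ξ : ℕ → ℕ → k) (H W : ℝ) (p : MvPolynomial (Fin N) k),
      (∀ j, j * m < N → 1 ≤ d j ∧ (d j : ℝ) ≤ H) →
      (∀ j j', j < j' → j' * m < N → (d j' : ℝ) ≤ ω * d j) →
      InvW (fun h : Fin N => d (h.val / m)) (fun h : Fin N => ξ (h.val / m) (h.val % m)) H σ W p →
      ∃ j, j * m < N ∧ ∃ f : MvPolynomial (Fin m) k, f ≠ 0 ∧ (∀ i, f.degreeOf i ≤ D) ∧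
        eval (fun i : Fin m => ξ j i.val) f = 0 ∧ d j * Real.log (PH f) ≤ Kc * H

/-- **BLB**. The same for the index set `Fin n × Fin m`. From BLM with `N = n * m` and the bijection
`finProdFinEquiv : Fin n × Fin m ≃ Fin (n * m)`, `(j, i) ↦ i + m j` (`h / m = j`, `h % m = i`): `p' = rename finProdFinEquiv p` has the
same degrees, `PH`, index (`renameEquiv`; `shiftP` commutes with renaming, weights of exponents correspond). -/
def S_BLB : Prop :=
  ∀ (n m : ℕ), 1 ≤ m → ∀ (k : Type) [Field k] [NumberField k] (σ : ℝ), 0 < σ →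
    ∃ (D : ℕ) (Kc ω : ℝ), 1 ≤ Kc ∧ 0 < ω ∧ ω ≤ 1 ∧
    ∀ (d : Fin n → ℕ) (ξ : Fin n × Fin m → k) (H W : ℝ) (p : MvPolynomial (Fin n × Fin m) k),
      (∀ j, 1 ≤ d j ∧ (d j : ℝ) ≤ H) → (∀ j j', j < j' → (d j' : ℝ) ≤ ω * d j) →
      p ≠ 0 → 0 < W → (∀ h, (p.degreeOf h : ℝ) ≤ d h.1 * W) → Real.log (PH p) ≤ H * W →
      IndGe (fun h : Fin n × Fin m => d h.1) ξ (σ * W) p →
      ∃ (j : Fin n) (f : MvPolynomial (Fin m) k), f ≠ 0 ∧ (∀ i, f.degreeOf i ≤ D) ∧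
        eval (fun i : Fin m => ξ (j, i)) f = 0 ∧ d j * Real.log (PH f) ≤ Kc * H

/-- **SEPH** (sec. 5.4, separation of the coordinates `τ` of `x_0`). Hypotheses allowed: GenWron, DetHeight, WronDeg (landed in
`Helper92.Ru`), HasseBasic.
PROOF. `p = ∑_β p_β(X) X0^β` over the `β : τ → ℕ` with entries `≤ E` (`p_β` = `coeff` with respect to the variables `inr`; e.g.
`sumAlgEquiv`/`sumToIter`). Choose a maximal linearly independent subfamily `p_t`, `t ∈ T` (`exists_linearIndependent`), `s = |T| ≤ (E+1)^|τ|`, `s ≥ 1` since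
`p ≠ 0`. Every `p_β = ∑_t λ_(β,t) p_t`, so `q := p(X; ξ0) = ∑_t G_t p_t`, `G_t = ∑_β λ_(β,t) ξ0^β ∈ k`, and `q ≠ 0` gives `t₀` with `G_(t₀) ≠ 0`.
GenWron: `μ_0, .., μ_(s-1)`, `|μ_i| ≤ i ≤ s - 1`, `U := det (hasse (μ_i) (p_t)) ≠ 0`. DEGREES: WronDeg. HEIGHT: `U` is the part of degree `0` in the
variables `inr` of `Δ := det (hasse (μ_i ⊕ β_t) p)` (the part of degree `0` in `X0` of `hasse (μ ⊕ β) p` is `hasse μ (p_β)`), its coefficients are
coefficients of `Δ`, so `PH U ≤ PH Δ` (`Height.mulHeight` of a nonzero subvector), and DetHeight for `Δ` with `R' = max R (E+1)^|τ|`: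
`log PH Δ ≤ s (log PH p + (2(|ι|+|τ|)+1) [k:ℚ] log 2 * R')` (`R' ≤ (E+1)^|τ| R`). (Or estimate `U` directly with HeightLocal.)
INDEX: `G_(t₀) U = det` of the matrix with the column `t₀` replaced by `hasse (μ_i) q` (`Matrix.det_updateCol_sum`-type argument:
column operations); `hasse (μ_i) q` has index `≥ θ - |μ_i|/ρ ≥ θ - s/ρ` (HasseBasic: `shiftP` commutes with `hasse`; a monomial `a` of
`hasse μ f` comes from the monomial `a + μ` of `f`), all the other entries have index `≥ 0`; expand along the column `t₀`. -/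
def S_SEPH : Prop :=
  ∀ (k : Type) [Field k] [NumberField k] (ι τ : Type) [Fintype ι] [DecidableEq ι] [Fintype τ]
    [DecidableEq τ] (E : ℕ), ∃ c₁ : ℝ, 0 ≤ c₁ ∧
    ∀ (r : ι → ℕ) (ξ : ι → k) (ξ0 : τ → k) (R ρ : ℕ) (θ : ℝ) (p : MvPolynomial (ι ⊕ τ) k),
      1 ≤ R → 1 ≤ ρ → (∀ h, ρ ≤ r h) → (∀ i, p.degreeOf (Sum.inr i) ≤ E) →
      (∀ h, p.degreeOf (Sum.inl h) ≤ R) →
      aeval (Sum.elim X fun i => (C (ξ0 i) : MvPolynomial ι k)) p ≠ 0 →
      IndGe r ξ θ (aeval (Sum.elim X fun i => (C (ξ0 i) : MvPolynomial ι k)) p) →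
      ∃ (s : ℕ) (U : MvPolynomial ι k), 1 ≤ s ∧ s ≤ (E + 1) ^ Fintype.card τ ∧ U ≠ 0 ∧
        (∀ h, U.degreeOf h ≤ s * p.degreeOf (Sum.inl h)) ∧
        Real.log (PH U) ≤ s * (Real.log (PH p) + c₁ * R) ∧ IndGe r ξ (θ - s / ρ) U

/-- **NORT** (Northcott, general number of variables; the landed `Helper35.SGM.FINH` is the case of irreducible polynomials in two
variables, its proof works). PROOF. Let `f ≠ 0`, degrees `≤ D`, `log PH f ≤ C`; divide by one coefficient: the other coefficients have bounded height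
(`logHeight₁ (x_i / x_j) ≤ logHeight x`), so there are finitely many `f` up to factors; `Z` = their product. -/
def S_NORT : Prop :=
  ∀ (K : Type) [Field K] [NumberField K] (m D : ℕ) (A : ℝ), ∃ Z : MvPolynomial (Fin m) K, Z ≠ 0 ∧
    ∀ f : MvPolynomial (Fin m) K, f ≠ 0 → (∀ i, f.degreeOf i ≤ D) → Real.log (PH f) ≤ A → f ∣ Z

/-! ## The centre (sec. 2) -/

/-- **GENS** (sec. 2.2 (i)). `t : ℕ`: 'transcendence degree `< t + 1`' becomes '`< t`'.
PROOF. Every `I a` has finitely many minimal primes (`Ideal.finite_minimalPrimes_of_isNoetherianRing`). For a minimal prime `P` of `I a` with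
`g a j ∉ P` for some `j` the set `{c : J → K | ∑ c_j g a j ∈ P}` is a proper subspace of `J → K`; a vector space over an infinite field is not a
finite union of proper subspaces (`Subspace.biUnion_ne_univ_of_top_notMem`): choose `c` outside. Let `ζ` be a zero as in the conclusion, `P' = ker (aeval ζ)`, prime,
`I a ≤ P'`, `P ≤ P'` a minimal prime (`Ideal.exists_minimalPrimes_le`), `g a j ∉ P` since it is not in `P'`. So `q := ∑ c_j g a j ∉ P`, `q ∈ P'`.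
`Ω' = Frac(K[X]/P)`, `ζ'` = the classes of the variables: a zero of `I a`, and `g a j (ζ') ≠ 0`; hypothesis: `T' ⊂ Ω'`, `|T'| ≤ t`, `ζ'` algebraic over `K(T')`, so
`trdeg_K K(ζ') ≤ t`. Let `ζ_i`, `i ∈ S`, be a transcendence basis of `K(ζ)` (`ζ_i`, `i ∉ S`, algebraic over `K(ζ_S)`; `T := ` the set of the `ζ_i`, `i ∈ S`). The `ζ'_i`, `i ∈ S`, are
algebraically independent (a relation modulo `P` is a relation at `ζ`), so `|S| ≤ t`. If `|S| = t`: they are a transcendence basis of `K(ζ')`, so `q(ζ') ≠ 0` is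
algebraic over `K(ζ'_S)`: there is a relation `b_0(ζ'_S) + b_1(ζ'_S) q(ζ') + .. = 0` with `b_0 ≠ 0` (divide by a power of `q(ζ')`), the polynomial
`b_0 + b_1 q + ..` is in `P ≤ P'`, evaluate at `ζ`: `b_0(ζ_S) = 0`, contradiction. So `|S| < t`. -/
def S_GENS : Prop :=
  ∀ (K : Type) [Field K] [CharZero K] (m : ℕ) (G : Type) [Finite G] (J : Type) [Fintype J]
    (I : G → Ideal (MvPolynomial (Fin m) K)) (g : G → J → MvPolynomial (Fin m) K) (t : ℕ),
    (∀ a, ∀ (Ω : Type) [Field Ω] [Algebra K Ω] (ζ : Fin m → Ω), (∀ q ∈ I a, aeval ζ q = 0) →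
      (∃ j, aeval ζ (g a j) ≠ 0) → ∃ T : Finset Ω, T.card < t + 1 ∧
        ∀ i, IsAlgebraic (IntermediateField.adjoin K (T : Set Ω)) (ζ i)) →
    ∃ c : J → K, ∀ a, ∀ (Ω : Type) [Field Ω] [Algebra K Ω] (ζ : Fin m → Ω),
      (∀ q ∈ I a, aeval ζ q = 0) → aeval ζ (∑ j, c j • g a j) = 0 →
      (∃ j, aeval ζ (g a j) ≠ 0) → ∃ T : Finset Ω, T.card < t ∧
        ∀ i, IsAlgebraic (IntermediateField.adjoin K (T : Set Ω)) (ζ i)

/-- **GENF** (sec. 2.2 (i)). Hypothesis allowed: GENS.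
PROOF. `ch a D` is additive and `K`-linear (`G_HVB` of `Helper5.UN`, landed). A zero `ζ` of all `ch a D (f j)` has `trdeg < m - p + 1`: the pairs
`y_i = (ζ_i, 1)` (`a i`), and for `a i = false` `(ζ_i⁻¹, 1)` if `ζ_i ≠ 0`, `(1, 0)` if `ζ_i = 0`, have `hv .. = 0` (HVB (3): scaling), CodimGT (`T.card + (p-1) < m`).
`p` steps with `J = J`, `g a j = ch a D (f j)`, `I_0 = ⊥`, `I_(k+1) a = I_k a ⊔ span {ch a D u_(k+1)}`, `u_(k+1) = ∑ c_j • f j`: invariant `trdeg < m - k + 1` for zeros of `I_k a`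
with some `ch a D (f j) ≠ 0` (`k = 0`: `T` = all the `ζ_i`). After `p` steps every zero of `I_p a` has `trdeg < m - p + 1`. Then `m - p + 1` steps with the family of all
monomials of degrees `≤ D` (one of them is `1` in the chart `a`: `∏_(a i = false) X_i^D`): the zeros of `I_(m+1) a` would have `|T| < 0`: there are none, so
`I_(m+1) a = ⊤` (otherwise a maximal ideal `P`, `Ω = K[X]/P`), i.e. `1 = ∑ h_s ch a D (u_s)`. -/
def S_GENF : Prop :=
  ∀ (K : Type) [Field K] [CharZero K] (m p D : ℕ) (J : Type) [Fintype J]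
    (f : J → MvPolynomial (Fin m) K), (∀ j i, degreeOf i (f j) ≤ D) → 1 ≤ D → 1 ≤ p → p ≤ m →
    CodimGT D f (p - 1) →
    ∃ u : Fin (m + 1) → MvPolynomial (Fin m) K, (∀ s i, degreeOf i (u s) ≤ D) ∧
      (∀ s : Fin (m + 1), s.val < p → ∃ c : J → K, u s = ∑ j, c j • f j) ∧
      ∀ a : Fin m → Bool, ∃ h : Fin (m + 1) → MvPolynomial (Fin m) K,
        ∑ s, h s * ch a D (u s) = 1

/-- **MULF** (sec. 2.2 (ii)). No hypotheses (HVB of `Helper5.UN` is landed).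
PROOF. Fix `a` and `h` as in GENF, `k1 ≥ D + ` all degrees of the `h`. Multiply `1 = ∑ h_s(ζ) u_s^a(ζ)` by `∏_(a i = false) X_i^(k1)` after `ζ_i = X_i` (`a i`),
`ζ_i = 1/X_i` (`a i = false`): `∏_(a i = false) X_i^(k1) = ∑ H_(a,s) u_s`, with `H_(a,s)` = the sum over the monomials `g` of `h_s` of
`coeff * ∏_(a i) X_i^(g_i) ∏_(a i = false) X_i^(k1 - D - g_i)`, degrees `≤ k1 - D` (work in the fraction field, or compare values at all points with nonzero coordinates, or as an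
identity for monomials). For `N ≥ 2 k1`, `g ∈ bx m N` let `a i = decide (g_i < k1)`; `X^g = ∏_(a i = false) X_i^(k1) * X^(g')`, `g'_i = g_i - k1` or `g_i`; so
`h_(s) := H_(a,s) X^(g')` has degrees `≤ k1 - D + g_i - k1` resp. `≤ k1 - D + k1 - 1`, in both cases `≤ N - D`. The coefficients of the `h_s` are those of the finitely many
`H_(a,s)`: `B v := 1 + ` the sum of all `v(coefficients)`-type place constant (`max` over the finitely many coefficients and `1`: PlC), `Dn` a common denominator; the number of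
monomials of `h_s` is `≤ c`. -/
def S_MULF : Prop :=
  ∀ (K : Type) [Field K] [NumberField K] (m D : ℕ) (u : Fin (m + 1) → MvPolynomial (Fin m) K),
    1 ≤ D → (∀ s i, degreeOf i (u s) ≤ D) →
    (∀ a : Fin m → Bool, ∃ h : Fin (m + 1) → MvPolynomial (Fin m) K,
      ∑ s, h s * ch a D (u s) = 1) →
    ∃ (k1 c Dn : ℕ) (B : AbsoluteValue K ℝ → ℝ), 0 < Dn ∧ PlC B ∧ ∀ N, 2 * k1 + D ≤ N →
      ∀ g ∈ bx m N, ∃ h : Fin (m + 1) → MvPolynomial (Fin m) K,
        (∏ i, X i ^ g i : MvPolynomial (Fin m) K) = ∑ s, h s * u s ∧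
        (∀ s i, degreeOf i (h s) ≤ N - D) ∧ (∀ s, (h s).support.card ≤ c) ∧
        (∀ s b v, v (coeff b (h s)) ≤ B v) ∧ ∀ s b, _root_.IsIntegral ℤ ((Dn : K) * coeff b (h s))

/-- **ITER** (sec. 2.2 (iii)). `t = (N - 2 k1) / D` steps (natural numbers; `0` if `N < 2 k1 + D`), `N - t D ≤ 2 k1 + D`.
PROOF. Induction on `t` with MULF's conclusion as the hypothesis: for `N' = N - t' D ≥ 2 k1 + D` every monomial of degrees `≤ N'` is `∑_s u_s h_s`, `h_s` of degrees `≤ N' - D`. So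
`X^g = ∑_(|η| = t) u^η r_(η,g)`, `r_(η,g)(t+1) = ∑_(s, η_s ≥ 1) ∑_b coeff_b (r_(η - 1_s, g)) h_s(b)` (apply the step to the monomials `b` of `r_(η', g)`, `η' = η - 1_s`).
COEFFICIENTS: `|coeff r^(t+1)| ≤ cst v ((m+1) (number of monomials of `r^(t)`)) ..` is too weak (the number of monomials of degrees `≤ N` is `(N+1)^m`, which would give `(N+1)^(m t)`): use instead the
bound by SUMS: let `S(t) = ∑_η ∑_b v (coeff_b r_(η,g))` at an archimedean place: `S(t+1) ≤ S(t) * (m+1) c B v`, `S(0) = 1`; at a nonarchimedean place the maximum: `≤ (B v)^t`. So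
`v (coeff) ≤ (cst v ((m+1) c) * B v)^t`, `t ≤ N`. Integrality: `Dn^t`. (`B' v := cst v ((m+1) c) * B v`, and `Dn^(N+1) = Dn^t * Dn^(N+1-t)`.) -/
def S_ITER : Prop :=
  ∀ (K : Type) [Field K] [NumberField K] (m D k1 c Dn : ℕ) (B : AbsoluteValue K ℝ → ℝ)
    (u : Fin (m + 1) → MvPolynomial (Fin m) K), 1 ≤ D → 0 < Dn → PlC B →
    (∀ N, 2 * k1 + D ≤ N → ∀ g ∈ bx m N, ∃ h : Fin (m + 1) → MvPolynomial (Fin m) K,
        (∏ i, X i ^ g i : MvPolynomial (Fin m) K) = ∑ s, h s * u s ∧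
        (∀ s i, degreeOf i (h s) ≤ N - D) ∧ (∀ s, (h s).support.card ≤ c) ∧
        (∀ s b v, v (coeff b (h s)) ≤ B v) ∧ ∀ s b, _root_.IsIntegral ℤ ((Dn : K) * coeff b (h s))) →
    ∃ B' : AbsoluteValue K ℝ → ℝ, PlC B' ∧ ∀ N t : ℕ, (t = 0 ∨ 2 * k1 + t * D ≤ N) →
      ∃ r : (Fin (m + 1) → ℕ) → (Fin m → ℕ) → (Fin m → ℕ) → K,
        (∀ g ∈ bx m N, (∏ i, X i ^ g i : MvPolynomial (Fin m) K) =
          ∑ η ∈ (Fintype.piFinset fun _ : Fin (m + 1) => Finset.range (t + 1)).filter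
              (fun η => ∑ s, η s = t),
            ∑ b ∈ bx m (N - t * D), C (r η b g) * ((∏ s, u s ^ η s) * ∏ i, X i ^ b i)) ∧
        (∀ η b g v, v (r η b g) ≤ B' v ^ (N + 1)) ∧
        ∀ η b g, _root_.IsIntegral ℤ ((Dn : K) ^ (N + 1) * r η b g)

/-- **CEN** (sec. 2.2). Hypotheses allowed: GENF, MULF, ITER.
PROOF. `u` from GENF, `k1, c, Dn, B` from MULF, `r` from ITER with `t = (N - 2 k1) / D` if `N ≥ 2 k1 + D`, `t = 0` otherwise; so `N - t D ≤ 2 k1 + 2 D`. Enumerate the pairs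
`(η, b)`, `|η| = t`, `b ∈ bx m (N - t D)` by `Fin τ`; `E_(η,b) = u^η X^b`, `bad`: `∑_(s < p) η_s < k`. NUMBERS: bad `η`: the first `p` entries are `< k` (`≤ k^p` choices), of the other
`m + 1 - p` entries with a given sum all but one are free, `≤ (t+1)^(m-p) ≤ (N+1)^(m-p)`; `b`: `≤ (2 k1 + 2 D + 1)^m`. `τ ≤ (t+1)^(m+1) (2k1+2D+1)^m ≤ c'^(N+1)` (`N + 1 ≤ 2^(N+1)`).
NORMS: `u_s = ∑ c_j f_j` (`s < p`): `Nr (u_s(x)) (B'' v * (ρ (∏ a)^D))`, `B'' v = cst v |J| * max(1, v(c_j))`; `s ≥ p`: `Nr (u_s(x)) (B'' v (∏ a)^D)` (`u_s` has degrees `≤ D`, `a ≥ 1`; rules of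
norm frames: `Helper76.SGC.NFB`, landed). So `Nr (E) (B''^t ρ^(∑_(s<p) η_s) (∏ a)^(D t) ∏ a_i^(b_i))`, and `∏ a_i^(b_i) ≤ (∏ a)^(N - tD)`, `ρ ≤ 1`. The constant `B` of CEN is the maximum (product) of
`B'` (ITER) and `B''`. -/
def S_CEN : Prop :=
  ∀ (K : Type) [Field K] [NumberField K] (m p D : ℕ) (J : Type) [Fintype J]
    (f : J → MvPolynomial (Fin m) K), (∀ j i, degreeOf i (f j) ≤ D) → 1 ≤ D → 1 ≤ p → p ≤ m →
    CodimGT D f (p - 1) →
    ∃ (c Dn : ℕ) (B : AbsoluteValue K ℝ → ℝ), 0 < Dn ∧ PlC B ∧ ∀ N k : ℕ,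
      ∃ (τ : ℕ) (bad : Finset (Fin τ)) (r : Fin τ → (Fin m → ℕ) → K)
        (E : Fin τ → MvPolynomial (Fin m) K), τ ≤ c ^ (N + 1) ∧
        bad.card ≤ c * k ^ p * (N + 1) ^ (m - p) ∧ CenD f D B Dn N k τ bad r E

/-- **ELIM** (sec. 2.1, algebra). `v + 1 = m - s` variables of `J`.
PROOF. Fix a chart `a`; `b` = the ideal generated by the `ch a D (f j)`. Claim: there is `Z_a ≠ 0` in `K[X_i : i ∈ J]` with `Z_a ∈ b`. Otherwise
(`Ideal.exists_le_prime_disjoint` for the multiplicative set of the nonzero polynomials in the variables of `J`) there is a prime `P ⊇ b` which contains no such polynomial;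
`Ω = Frac(K[X]/P)`, `ζ` = classes of the variables; `ζ_J` algebraically independent; CodimGT for the pairs as in GENF: `T`, `|T| + s < m`, all `ζ_i` algebraic over `K(T)`; so
`|J| ≤ |T|` (transcendence degree), `|J| + s < m`: contradiction. Take `E ≥ 1` and `≥` all degrees of the finitely many `Z_(a,J)`. -/
def S_ELIM : Prop :=
  ∀ (K : Type) [Field K] [CharZero K] (m s D : ℕ) (ι : Type) [Fintype ι]
    (f : ι → MvPolynomial (Fin m) K), (∀ j i, degreeOf i (f j) ≤ D) → CodimGT D f s →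
    ∃ E : ℕ, 1 ≤ E ∧ ∀ (J : Finset (Fin m)), m ≤ J.card + s → ∀ a : Fin m → Bool,
      ∃ (Z : MvPolynomial (Fin m) K) (h : ι → MvPolynomial (Fin m) K), Z ≠ 0 ∧
        (∀ i, Z.degreeOf i ≤ E) ∧ (∀ i, i ∉ J → Z.degreeOf i = 0) ∧ Z = ∑ j, h j * ch a D (f j)

/-- **ELOC2** (sec. 2.1, local comparison). Hypothesis allowed: ELIM.
PROOF. `Z~_a` = `∑_g coeff_g(Z_a) ∏_(a i) X_i^(g_i) ∏_(a i = false, i ∈ J) X_i^(E - g_i)`, nonzero, in the variables of `J`, degrees `≤ E`. `P := ∏_a Z~_a`, degrees `≤ E' = 2^m E`. At a place `v`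
and `x` let `a i = decide (v (x_i) ≤ 1)`, `ζ_i = x_i` or `1/x_i`, `v (ζ_i) ≤ 1`. `v(Z~_a(x)) / ∏_(i ∈ J) Mv(x_i)^E = v(Z_a(ζ)) = v(∑ h_j(ζ) (ch a D f_j)(ζ)) ≤ B_v max_j v((ch a D f_j)(ζ))` and
`v((ch a D f_j)(ζ)) = v(f_j(x)) / ∏ Mv(x_i)^D`. For the other charts `v(Z~_(a')(x)) ≤ B_v ∏_(i ∈ J) Mv(x_i)^E` (trivial estimate). Multiply. -/
def S_ELOC2 : Prop :=
  ∀ (K : Type) [Field K] [NumberField K] (m s D : ℕ) (ι : Type) [Fintype ι]
    (f : ι → MvPolynomial (Fin m) K), (∀ j i, degreeOf i (f j) ≤ D) → CodimGT D f s →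
    ∃ (E : ℕ) (B : AbsoluteValue K ℝ → ℝ), 1 ≤ E ∧ PlC B ∧ ∀ (J : Finset (Fin m)),
      m ≤ J.card + s → ∃ P : MvPolynomial (Fin m) K, P ≠ 0 ∧ (∀ i, P.degreeOf i ≤ E) ∧
        (∀ i, i ∉ J → P.degreeOf i = 0) ∧ ∀ (v : AbsoluteValue K ℝ) (x : Fin m → K),
        v (eval x P) * (∏ i, Mv v (x i)) ^ D ≤
          B v * (∏ i ∈ J, Mv v (x i)) ^ E * ⨆ j, v (eval x (f j))

/-- **CHB** (sec. 0, trivial upper bound). PROOF. `log⁺ y ≤ log y + log B_v` for `y ≥ 1/B_v`, `B_v ≥ 1`; with `y = (∏ Mv)^D / max_j |f_j(x)|` (`y ≥ 1/B_v` by the trivial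
estimate of `f_j(x)`), `max_j ≥ |f_(j₀)(x)|`, product formula (`PS_log`) for `f_(j₀)(x) ≠ 0`, `PS_log_Mv`. -/
def S_CHB : Prop :=
  ∀ (K : Type) [Field K] [NumberField K] (m D : ℕ) (J : Type) [Fintype J]
    (f : J → MvPolynomial (Fin m) K), (∀ j i, degreeOf i (f j) ≤ D) → ∃ c : ℝ, 0 ≤ c ∧
    ∀ x : Fin m → K, (∃ j, eval x (f j) ≠ 0) →
      cH D f x ≤ D * ∑ i, logHeight₁ (x i) + c ∧
      FS (fun v => Real.log (rho f D v x)) ∧ PS (fun v => Real.log (rho f D v x)) = - cH D f x ∧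
      ∀ v, 0 < rho f D v x ∧ rho f D v x ≤ 1

/-- **PRJ** (sec. 2.1, projections to `m' = v + 2` factors). Hypothesis allowed: ELOC2, CHB.
PROOF. `E`, `P_J` from ELOC2. The range of `u` without `u i` is a set `J_i` with `m' - 1 = m - s` elements, `m ≤ |J_i| + s`. `J = Fin m' × Bool`, `f' (i, b)` = the polynomial in `m'` variables with
`rename u (f' (i, b)) = P_(J_i) * X_(u i)^(if b then E else 0)` (`exists_rename_eq_of_vars_subset_range`). Degrees `≤ E`. CODIMENSION: let `y` be a common zero over `Ω`; let `S ⊂ Fin m'` be such that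
`y_i 0`, `i ∈ S`, is a transcendence basis of `K(y)`. If `|S| ≥ m' - 1` then `S ⊇ Fin m' \ {i}` for some `i`, the `y_j` with `j ≠ i` are `(y_j 0, 1)` (`(1,0)` is algebraic), independent, so
`P_(J_i)` (as a polynomial in the variables `≠ i`) does not vanish there, and `hv` of `f' (i, false)`, `f' (i, true)` is `P * (y_i 1)^E`, `P * (y_i 0)^E`, not both `0`: contradiction. So `|S| + 1 < m'`.
LOCAL: `v(f'(i,b)(x∘u)) ≤ v(P_(J_i)(x)) Mv(x_(u i))^E`, so by ELOC2 `max v(f'(x∘u)) / (∏_(i<m') Mv(x_(u i)))^E ≤ B_v max_j v(f_j(x)) / (∏ Mv)^D`; take `log⁺` of the inverses and sum over the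
places (`FS`: CHB). `G := P_(J_0)` (then `f' (0, false)(x∘u) ≠ 0`) times a nonzero `f j₀` (exists: otherwise all `y` are zeros, in contradiction to CodimGT, `s ≥ 0`; `Ω` = the rational functions). -/
def S_PRJ : Prop :=
  ∀ (K : Type) [Field K] [NumberField K] (m s D : ℕ) (ι : Type) [Fintype ι]
    (f : ι → MvPolynomial (Fin m) K), (∀ j i, degreeOf i (f j) ≤ D) → CodimGT D f s →
    ∀ (m' : ℕ) (u : Fin m' → Fin m), m' + s = m + 1 → 1 ≤ m' → Function.Injective u →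
    ∃ (E : ℕ) (J : Type) (_ : Fintype J) (f' : J → MvPolynomial (Fin m') K)
      (G : MvPolynomial (Fin m) K) (c : ℝ), 1 ≤ E ∧ (∀ j i, degreeOf i (f' j) ≤ E) ∧
      CodimGT E f' 1 ∧ G ≠ 0 ∧ 0 ≤ c ∧ ∀ x : Fin m → K, eval x G ≠ 0 →
        (∃ j, eval (fun i => x (u i)) (f' j) ≠ 0) ∧ (∃ j, eval x (f j) ≠ 0) ∧
        cH D f x ≤ cH E f' (fun i => x (u i)) + c

/-- **EMPH** (the centre is empty, or `D = 0`). Hypothesis allowed: ELOC2. PROOF. `s ≥ m`: ELOC2 with `J = ∅`: a nonzero constant `P`: `v(P) (∏ Mv)^D ≤ B_v max_j v(f_j(x))`, so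
`log⁺ ≤ log B_v + log⁺ (1/v(P))`, sum. `D = 0`: the `f_j` are constants; not all are `0` (otherwise every `y` is a common zero, also over `Ω = K(t_1, .., t_m)`, `y_i = (t_i, 1)`, and `|T| < m` is impossible); so
`cH` is a constant. -/
def S_EMPH : Prop :=
  ∀ (K : Type) [Field K] [NumberField K] (m s D : ℕ) (ι : Type) [Fintype ι]
    (f : ι → MvPolynomial (Fin m) K), (∀ j i, degreeOf i (f j) ≤ D) → CodimGT D f s →
    (m ≤ s ∨ D = 0) → ∃ c : ℝ, ∀ x : Fin m → K, cH D f x ≤ c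

end

end Pool.Agent.Helper60.HC
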