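import Pool.Agent.Helper60.HC.Main3
import Pool.Agent.Helper68.VN.Main

/-!
# Project HC: theorem `(*)`
-/

set_option autoImplicit false

namespace Pool.Agent.Helper60.HC

/-- theorem `(*)` -/
theorem t_MAIN : S_MAIN := main_mod Pool.Agent.Helper68.VN.th_P1 Pool.Agent.Helper68.VN.th_P2

end Pool.Agent.Helper60.HC
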