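import Pool.Agent.Helper60.HC.GoalsP
import Pool.Agent.Helper42.SG.Final

/-!
# Project HC: the assembly, part 1 (P1 in a subproduct)
-/

set_option autoImplicit false

open MvPolynomial

namespace Pool.Agent.Helper60.HC

open WeierstrassCurve Height Height.AdmissibleAbsValues
open Pool.Agent.Helper29.BL Pool.Agent.Helper92.Ru Pool.Agent.Helper42.SG
open Pool.Agent.Helper5.UN (hv CodimGT cH)

noncomputable section

theorem Al.mono {K : Type} [Field K] [NumberField K] [DecidableEq K] {σ : Type} [Fintype σ]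
    {W : σ → Affine K} {H : ∀ i, (W i).Point → ℝ} {J : Type} {D : ℕ} {f : J → MvPolynomial σ K}
    {n : ℕ} {θ θ' ε ε' K0 K0' : ℝ} {x : Fin n → ∀ i, (W i).Point} {x0 : ∀ i, (W i).Point}
    {e : Fin n → ℕ} {T : ℝ} (h : Al H D f n θ ε K0 x x0 e T) (hT : 0 ≤ T) (hθ : θ ≤ θ')
    (hε : ε' ≤ ε) (hK : K0' ≤ K0) : Al H D f n θ' ε' K0' x x0 e T := by
  refine ⟨h.nd, h.nd0, h.up, h.up0, fun j => (h.near j).trans (mul_le_mul_of_nonneg_right hθ hT),
    fun j => (mul_le_mul_of_nonneg_right hε hT).trans (h.exc j), h.off,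
    fun j => hK.trans (h.big j), fun j => ?_, fun j j' hj => ?_⟩
  · exact (mul_le_mul_of_nonneg_right hK (by positivity)).trans (h.bigT j)
  · exact (mul_le_mul_of_nonneg_right hK (by positivity)).trans (h.grow j j' hj)

/-- P1 in the product of the factors `i ∈ I` -/
theorem PI (hP1 : S_P1) (hPRJ : S_PRJ) (hLOR : S_LOR)
    (K : Type) [Field K] [NumberField K] [DecidableEq K] (σ : Type) [Fintype σ] [DecidableEq σ]
    (W : σ → Affine K) (hW : ∀ i, (W i).IsElliptic) (H : ∀ i, (W i).Point → ℝ) (c₀ : ℝ)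
    (hH : ∀ i, CanH (W i) (H i) c₀) (D s : ℕ) (ι : Type) [Fintype ι] (f : ι → MvPolynomial σ K)
    (hf : ∀ j i, degreeOf i (f j) ≤ D) (hc : CodimGT D f s) (hs : s < Fintype.card σ)
    (ε : ℝ) (hε : 0 < ε) (I : Finset σ) (hI : I.card + s = Fintype.card σ + 1) :
    ∃ (n D' : ℕ) (C' θ K0 : ℝ) (G : MvPolynomial σ K), 0 < θ ∧ 0 ≤ C' ∧ G ≠ 0 ∧
      (∀ x : σ → K, eval x G ≠ 0 → ∃ j, eval x (f j) ≠ 0) ∧
      ∀ (x : Fin (n + 1) → ∀ i, (W i).Point) (x0 : ∀ i, (W i).Point) (e : Fin (n + 1) → ℕ)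
        (T : ℝ), 0 ≤ T → Al H D f (n + 1) θ ε K0 x x0 e T → (∀ j, eval (xs (x j)) G ≠ 0) →
        (∃ j, Lo I D' (C' * (4 ^ e 0 / 4 ^ e j)) (xs (x j))) ∨
          Lo I D' (C' * 4 ^ e 0) (xs x0) := by
  obtain ⟨E, J, _, f', G, c, hf', hc', hG, hc0, hloc⟩ := hPRJ K σ s D ι f hf hc I hI (by omega)
  have hcard : 2 ≤ Fintype.card {i // i ∈ I} := by
    rw [Fintype.card_coe]
    omega
  obtain ⟨n, D', C', θ, K1, hθ, hC', h1⟩ := hP1 K {i // i ∈ I} (fun i => W i.1)
    (fun i => hW i.1) (fun i => H i.1) c₀ (fun i => hH i.1) E J f' hf' hc' hcard (ε / 2)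
    (half_pos hε)
  refine ⟨n, D', C', θ, max K1 (max 1 (2 * c / ε)), G, hθ, hC', hG, fun x hx => (hloc x hx).2.1,
    fun x x0 e T hT hAl hGx => ?_⟩
  have hle : ∀ z : ∀ i, (W i).Point,
      nrs (fun i : {i // i ∈ I} => H i.1) (fun i => z i.1) ≤ nrs H z := by
    intro z
    unfold nrs
    have e1 : ∑ i : {i // i ∈ I}, H i.1 (z i.1) = ∑ i ∈ I, H i (z i) :=
      Finset.sum_coe_sort I (fun i => H i (z i))
    show ∑ i : {i // i ∈ I}, H i.1 (z i.1) ≤ _
    rw [e1]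
    exact Finset.sum_le_sum_of_subset_of_nonneg (Finset.subset_univ _)
      fun i _ _ => (hH i).quad.nonneg _
  have hK0 : K1 ≤ max K1 (max 1 (2 * c / ε)) := le_max_left _ _
  have hK2 : 2 * c / ε ≤ max K1 (max 1 (2 * c / ε)) := (le_max_right _ _).trans (le_max_right _ _)
  have hxs : ∀ z : ∀ i, (W i).Point, (xs (fun i : {i // i ∈ I} => z i.1) : {i // i ∈ I} → K) =
      fun i : {i // i ∈ I} => xs z i.1 := fun z => rfl
  have hAl' : Al (fun i : {i // i ∈ I} => H i.1) E f' (n + 1) θ (ε / 2) K1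
      (fun j i => x j i.1) (fun i => x0 i.1) e T := by
    refine ⟨fun j i => hAl.nd j i.1, fun i => hAl.nd0 i.1, fun j => ?_, (hle x0).trans hAl.up0,
      fun j => ?_, fun j => ?_, fun j => ?_, fun j => hK0.trans (hAl.big j), fun j => ?_,
      fun j j' hj => ?_⟩
    · exact (mul_le_mul_of_nonneg_left (hle _) (by positivity)).trans (hAl.up j)
    · exact (hle ((2 ^ e j) • x j - x0)).trans (hAl.near j)
    · have h2 := (hloc (xs (x j)) (hGx j)).2.2
      have h3 := hAl.exc j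
      have h4 := hAl.bigT j
      have h5 : (0 : ℝ) < 4 ^ e j := by positivity
      rw [hxs]
      have h6 : (2 * c / ε) * 4 ^ e j ≤ T := (mul_le_mul_of_nonneg_right hK2 h5.le).trans h4
      have h7 : c * 4 ^ e j ≤ ε / 2 * T := by
        have := mul_le_mul_of_nonneg_left h6 (half_pos hε).le
        have e1 : ε / 2 * (2 * c / ε * 4 ^ e j) = c * 4 ^ e j := by
          field_simp
        rw [e1] at this
        exact this
      have h8 : (4 : ℝ) ^ e j * cH D f (xs (x j)) ≤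
          4 ^ e j * (cH E f' (fun i : {i // i ∈ I} => xs (x j) i.1) + c) :=
        mul_le_mul_of_nonneg_left h2 h5.le
      nlinarith
    · exact (hloc (xs (x j)) (hGx j)).1
    · exact (mul_le_mul_of_nonneg_right hK0 (by positivity)).trans (hAl.bigT j)
    · exact (mul_le_mul_of_nonneg_right hK0 (by positivity)).trans (hAl.grow j j' hj)
  rcases h1 _ _ _ _ hAl' with ⟨j, hj⟩ | hj
  · exact Or.inl ⟨j, (hLOR K σ (xs (x j))).2.1 I D' _ hj⟩
  · exact Or.inr ((hLOR K σ (xs x0)).2.1 I D' _ hj)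

end

end Pool.Agent.Helper60.HC
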