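import Pool.Agent.Helper60.HC.Main1
import Pool.Agent.Helper12.SGB.All

/-!
# Project HC: the assembly, part 2 (`S_MAIN` from P1, P2)
-/

set_option autoImplicit false

open MvPolynomial

namespace Pool.Agent.Helper60.HC

open WeierstrassCurve Height Height.AdmissibleAbsValues
open Pool.Agent.Helper29.BL Pool.Agent.Helper92.Ru Pool.Agent.Helper42.SG
open Pool.Agent.Helper5.UN (hv CodimGT cH)

noncomputable section

theorem exists_pos_le {α : Type} [Finite α] (θ : α → ℝ) (h : ∀ a, 0 < θ a) :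
    ∃ δ : ℝ, 0 < δ ∧ ∀ a, δ ≤ θ a := by
  rcases isEmpty_or_nonempty α with h0 | h0
  · exact ⟨1, one_pos, fun a => (h0.false a).elim⟩
  · obtain ⟨a, ha⟩ := Finite.exists_min θ
    exact ⟨θ a, h a, ha⟩

/-- a nonzero polynomial which vanishes at the points with a coordinate of order two -/
def Bq {K : Type} [Field K] {σ : Type} (W : σ → Affine K) (i : σ) : MvPolynomial σ K :=
  4 * X i ^ 3 + C (W i).b₂ * X i ^ 2 + 2 * C (W i).b₄ * X i + C (W i).b₆

theorem eval_Bq {K : Type} [Field K] {σ : Type} (W : σ → Affine K) (i : σ) (x : σ → K) :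
    eval x (Bq W i) = Bf (W i) (x i) := by
  unfold Bq Bf
  simp

theorem Bq_ne_zero {K : Type} [Field K] [CharZero K] {σ : Type} (W : σ → Affine K) (i : σ) :
    Bq W i ≠ 0 := by
  intro h
  have h1 : ∀ t : K, Bf (W i) t = 0 := fun t => by
    rw [← eval_Bq W i (fun _ => t), h, map_zero]
  have h0 := h1 0
  have h2 := h1 1
  have h3 := h1 (-1)
  have h4 := h1 2
  unfold Bf at h0 h2 h3 h4
  have h5 : (24 : K) = 0 := by linear_combination h4 - 3 * h2 - h3 + 3 * h0
  norm_num at h5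

/-- the aligned data for a subsequence -/
theorem al_of {K : Type} [Field K] [NumberField K] [DecidableEq K] {σ : Type} [Fintype σ]
    {W : σ → Affine K} (H : ∀ i, (W i).Point → ℝ) {ι : Type} (D : ℕ) (f : ι → MvPolynomial σ K)
    (L : ℕ) (θ K0 θ1 ε K1 : ℝ) (x : ℕ → ∀ i, (W i).Point) (e' : ℕ → ℕ) (hK1 : 1 ≤ K1)
    (hK : 4 * K1 ≤ K0) (hθ : (4 * θ) ^ 2 ≤ θ1) (hε : 0 < ε)
    (hnd : ∀ j ≤ L, (∀ i, x j i ≠ 0 ∧ ps (x j i) ≠ 0) ∧ (∃ t, eval (xs (x j)) (f t) ≠ 0) ∧
      ε * nrs H (x j) ≤ cH D f (xs (x j)))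
    (hp : ∀ i j, i < j → j ≤ L →
      e' j < e' i ∧ K0 * nrs H (x i) ≤ nrs H (x j) ∧ K0 ≤ nrs H (x i) ∧
      K0 / 4 * (4 : ℝ) ^ e' j ≤ 4 ^ e' i ∧
      nrs H ((2 ^ (e' i - e' j)) • x i - x j) ≤ (4 * θ) ^ 2 * nrs H (x j) ∧
      3 / 4 * nrs H (x j) ≤ 4 ^ (e' i - e' j) * nrs H (x i) ∧
      (4 : ℝ) ^ (e' i - e' j) * nrs H (x i) ≤ 4 / 3 * nrs H (x j))
    (n : ℕ) (g : Fin n → ℕ) (l : ℕ) (hg : StrictMono g) (hl : ∀ j, g j < l) (hlL : l ≤ L)
    (hT : 0 ≤ nrs H (x l)) :
    Al H D f n θ1 (ε / 2) K1 (fun j => x (g j)) (x l) (fun j => e' (g j) - e' l)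
      (nrs H (x l)) := by
  have hjL : ∀ j, g j ≤ L := fun j => ((hl j).trans_le hlL).le
  refine ⟨fun j => (hnd _ (hjL j)).1, (hnd l hlL).1, fun j => ?_, by linarith, fun j => ?_,
    fun j => ?_, fun j => (hnd _ (hjL j)).2.1, fun j => ?_, fun j => ?_, fun j j' hj => ?_⟩
  · have := (hp _ _ (hl j) hlL).2.2.2.2.2.2
    linarith
  · exact (hp _ _ (hl j) hlL).2.2.2.2.1.trans (mul_le_mul_of_nonneg_right hθ hT)
  · have h1 := (hp _ _ (hl j) hlL).2.2.2.2.2.1
    have h2 := (hnd _ (hjL j)).2.2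
    have h3 : (4 : ℝ) ^ (e' (g j) - e' l) * (ε * nrs H (x (g j))) ≤
        4 ^ (e' (g j) - e' l) * cH D f (xs (x (g j))) :=
      mul_le_mul_of_nonneg_left h2 (by positivity)
    have h4 := mul_le_mul_of_nonneg_left h1 hε.le
    nlinarith
  · obtain ⟨-, h1, h2, -, -, h3, -⟩ := hp _ _ (hl j) hlL
    have h4 : 0 < nrs H (x (g j)) := by linarith
    have h5 : 3 / 4 * K0 * nrs H (x (g j)) ≤ 4 ^ (e' (g j) - e' l) * nrs H (x (g j)) := by
      nlinarith
    have h6 := le_of_mul_le_mul_right h5 h4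
    show K1 ≤ (4 : ℝ) ^ (e' (g j) - e' l)
    linarith
  · obtain ⟨-, h1, h2, -, -, -, h3⟩ := hp _ _ (hl j) hlL
    have h5 : (0 : ℝ) < 4 ^ (e' (g j) - e' l) := by positivity
    have h6 : (4 : ℝ) ^ (e' (g j) - e' l) * K0 ≤ 4 / 3 * nrs H (x l) :=
      (mul_le_mul_of_nonneg_left h2 h5.le).trans h3
    show K1 * (4 : ℝ) ^ (e' (g j) - e' l) ≤ nrs H (x l)
    nlinarith
  · obtain ⟨-, -, -, h1, -, -, -⟩ := hp _ _ (hg hj) (hjL j')
    have h2 := (hp _ _ (hl j') hlL).1
    have h3 := (hp _ _ (hl j) hlL).1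
    have e1 : (4 : ℝ) ^ e' (g j') = 4 ^ (e' (g j') - e' l) * 4 ^ e' l := by
      rw [← pow_add, Nat.sub_add_cancel h2.le]
    have e2 : (4 : ℝ) ^ e' (g j) = 4 ^ (e' (g j) - e' l) * 4 ^ e' l := by
      rw [← pow_add, Nat.sub_add_cancel h3.le]
    rw [e1, e2, ← mul_assoc] at h1
    have h4 := le_of_mul_le_mul_right h1 (by positivity : (0 : ℝ) < 4 ^ e' l)
    have h5 : (0 : ℝ) < 4 ^ (e' (g j') - e' l) := by positivity
    show K1 * (4 : ℝ) ^ (e' (g j') - e' l) ≤ 4 ^ (e' (g j) - e' l)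
    nlinarith

theorem main_of (hcan : CAN) (hEUP : EUP) (hSEQ : SEQ) (hP1 : S_P1) (hP2 : S_P2) (hPRJ : S_PRJ)
    (hEMPH : S_EMPH) (hNORT : S_NORT) (hLOR : S_LOR) (hQPI : S_QPI) (hPAIR : S_PAIR)
    (hCHB : S_CHB) : S_MAIN := by
  classical
  intro K _ _ _ σ _ _ W hW Γ hΓ D s ι _ f hf hc hs ε hε
  have hxn : ∀ z : ∀ i, (W i).Point, 0 ≤ ∑ i, hx (z i) := fun z =>
    Finset.sum_nonneg fun i _ => by
      unfold hx
      exact Height.zero_le_logHeight₁ _
  by_cases hsm : Fintype.card σ ≤ s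
  · obtain ⟨c, hc'⟩ := hEMPH K σ s D ι f hf hc hsm
    refine ⟨1, max c 0, one_ne_zero, le_max_right _ _, fun z _ _ _ => ?_⟩
    have h1 := hc' (xs z)
    have h2 : 0 ≤ ε * ∑ i, hx (z i) := mul_nonneg hε.le (hxn z)
    linarith [le_max_left c 0]
  have hsm' : s < Fintype.card σ := not_le.1 hsm
  -- canonical heights
  have hcan' : ∀ i, ∃ (H : (W i).Point → ℝ) (c : ℝ), CanH (W i) H c := fun i => by
    have := hW i
    exact hcan K (W i)
  choose H c hH0 using hcan'
  have hcn : ∀ i, 0 ≤ c i := fun i => (abs_nonneg _).trans ((hH0 i).near 0)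
  set c₀ := ∑ i, c i with hc₀
  have hc0 : 0 ≤ c₀ := Finset.sum_nonneg fun i _ => hcn i
  have hH : ∀ i, CanH (W i) (H i) c₀ := fun i =>
    canH_mono (hH0 i) (Finset.single_le_sum (fun j _ => hcn j) (Finset.mem_univ i))
  have hQ : IsQuad (nrs H) := hQPI.1 σ (fun i => (W i).Point) H fun i => (hH i).quad
  have hε2 : 0 < ε / 2 := half_pos hε
  -- P1 for all the subproducts
  choose n D' C' θ K0 G hθ hC' hG hGf h1 using
    fun I : {I : Finset σ // I.card + s = Fintype.card σ + 1} =>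
      PI hP1 hPRJ hLOR K σ W hW H c₀ hH D s ι f hf hc hsm' (ε / 2) hε2 I.1 I.2
  set D0 := Finset.univ.sup D' with hD0
  set C0 := ∑ I, C' I with hC0
  have hD0' : ∀ I, D' I ≤ D0 := fun I => Finset.le_sup (Finset.mem_univ I)
  have hC0' : ∀ I, C' I ≤ C0 := fun I =>
    Finset.single_le_sum (fun j _ => hC' j) (Finset.mem_univ I)
  have hC00 : 0 ≤ C0 := Finset.sum_nonneg fun I _ => hC' I
  -- P2
  obtain ⟨D2, C2, θ2, K2, hθ2, hC2, h2⟩ := hP2 K σ W hW H c₀ hH D s ι f hf hc hsm' (ε / 2) D0 C0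
    hε2 hC00
  -- the polynomial Z
  obtain ⟨Z1, hZ1, hN1⟩ := hNORT K σ D0 C0
  obtain ⟨Z2, hZ2, hN2⟩ := hNORT K σ D2 C2
  obtain ⟨cB, hcB, hB⟩ := hCHB K σ D ι f hf
  set Z := Z1 * Z2 * (∏ I, G I) * ∏ i, Bq W i with hZ
  have hZ0 : Z ≠ 0 := mul_ne_zero (mul_ne_zero (mul_ne_zero hZ1 hZ2)
    (Finset.prod_ne_zero_iff.2 fun I _ => hG I)) (Finset.prod_ne_zero_iff.2 fun i _ =>
      Bq_ne_zero W i)
  have hZev : ∀ x : σ → K, eval x Z ≠ 0 → eval x Z1 ≠ 0 ∧ eval x Z2 ≠ 0 ∧
      (∀ I, eval x (G I) ≠ 0) ∧ ∀ i, Bf (W i) (x i) ≠ 0 := by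
    intro x hx
    rw [hZ, map_mul, map_mul, map_mul, map_prod, map_prod] at hx
    have a1 := left_ne_zero_of_mul hx
    have a2 := right_ne_zero_of_mul hx
    have a3 := left_ne_zero_of_mul a1
    refine ⟨left_ne_zero_of_mul a3, right_ne_zero_of_mul a3, fun I =>
      Finset.prod_ne_zero_iff.1 (right_ne_zero_of_mul a1) I (Finset.mem_univ _), fun i => ?_⟩
    have := Finset.prod_ne_zero_iff.1 a2 i (Finset.mem_univ _)
    rwa [eval_Bq] at this
  -- there is a set I
  obtain ⟨I1, -, hI1⟩ := Finset.exists_subset_card_eq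
    (show Fintype.card σ + 1 - s ≤ (Finset.univ : Finset σ).card by
      rw [Finset.card_univ]; omega)
  have hI1' : I1.card + s = Fintype.card σ + 1 := by omega
  have hfne : ∀ x : σ → K, eval x Z ≠ 0 → ∃ j, eval x (f j) ≠ 0 := fun x hx =>
    hGf ⟨I1, hI1'⟩ x ((hZev x hx).2.2.1 _)
  -- constants
  obtain ⟨θ1, hθ1, hθ1'⟩ := exists_pos_le θ hθ
  set θm := min θ1 θ2 with hθm
  have hθm0 : 0 < θm := lt_min hθ1 hθ2
  set θs := min (1 / 32) (θm / 16) with hθs
  have hθs0 : 0 < θs := lt_min (by norm_num) (by positivity)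
  have hθs1 : θs ≤ 1 / 32 := min_le_left _ _
  have hθs2 : (4 * θs) ^ 2 ≤ θm := by
    have : θs ≤ θm / 16 := min_le_right _ _
    nlinarith
  set K1 := max 1 (max K2 (∑ I, |K0 I|)) with hK1
  have hK11 : 1 ≤ K1 := le_max_left _ _
  have hK12 : K2 ≤ K1 := (le_max_left _ _).trans (le_max_right _ _)
  have hK13 : ∀ I, K0 I ≤ K1 := fun I => (le_abs_self _).trans
    ((Finset.single_le_sum (f := fun I => |K0 I|) (fun j _ => abs_nonneg _)
      (Finset.mem_univ I)).trans ((le_max_right _ _).trans (le_max_right _ _)))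
  set Ks := max 16 (4 * K1) with hKs
  set L := (∑ I, n I) + 1 with hL
  obtain ⟨R, hR⟩ := hSEQ (∀ i, (W i).Point) (AddSubgroup.pi Set.univ Γ)
    (hQPI.2 σ (fun i => (W i).Point) Γ hΓ) (nrs H) hQ
    (fun z => (∀ i, z i ≠ 0) ∧ eval (xs z) Z ≠ 0 ∧ ε * nrs H z ≤ cH D f (xs z)) L θs Ks hθs0 (by
      intro x e hb1 hb2 hb3 hEx
      obtain ⟨e', hp⟩ := hPAIR _ (nrs H) hQ L θs Ks x e hθs0.le hθs1 (le_max_left _ _) hb1 hb2 hb3
      have hnd : ∀ j ≤ L, (∀ i, x j i ≠ 0 ∧ ps (x j i) ≠ 0) ∧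
          (∃ t, eval (xs (x j)) (f t) ≠ 0) ∧ ε * nrs H (x j) ≤ cH D f (xs (x j)) := by
        intro j hj
        obtain ⟨a1, a2, a3⟩ := hEx j hj
        refine ⟨fun i => ⟨a1 i, fun h0 => ?_⟩, hfne _ a2, a3⟩
        have := hW i
        have := (hEUP K (W i)).1 (x j i) (a1 i)
        rw [h0] at this
        exact (hZev _ a2).2.2.2 i (by
          show Bf (W i) (xc (x j i)) = 0
          rw [← this]; ring)
      have hT : ∀ z, 0 ≤ nrs H z := hQ.nonneg
      have hAl : ∀ (m : ℕ) (g : Fin m → ℕ) (l : ℕ), StrictMono g → (∀ j, g j < l) → l ≤ L →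
          Al H D f m θm (ε / 2) K1 (fun j => x (g j)) (x l) (fun j => e' (g j) - e' l)
            (nrs H (x l)) := fun m g l hg hl hlL =>
        al_of H D f L θs Ks θm ε K1 x e' hK11 (le_max_right _ _) hθs2 hε hnd hp m g l hg hl hlL
          (hT _)
      -- exponents decrease
      have hanti : ∀ i j, i < j → j ≤ L → e' j < e' i := fun i j hij hj => (hp i j hij hj).1
      -- the indices which are not low
      set Bad : {I : Finset σ // I.card + s = Fintype.card σ + 1} → Finset ℕ := fun I =>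
        (Finset.Icc 1 L).filter fun j => ¬ Lo I.1 D0 (C0 * 4 ^ (e' 0 - e' j)) (xs (x j))
        with hBad
      have hcard : ∀ I, (Bad I).card ≤ n I := by
        intro I
        by_contra hlt
        push Not at hlt
        obtain ⟨t, htB, htc⟩ := Finset.exists_subset_card_eq (show n I + 1 ≤ (Bad I).card from hlt)
        set em := t.orderEmbOfFin htc with hem
        have hmem : ∀ j, em j ∈ Bad I := fun j => htB (Finset.orderEmbOfFin_mem _ _ _)
        have hB1 : ∀ j, 1 ≤ em j ∧ em j ≤ L := fun j => by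
          have := hmem j
          rw [hBad] at this
          simp only [Finset.mem_filter, Finset.mem_Icc] at this
          exact this.1
        have hB2 : ∀ j, ¬ Lo I.1 D0 (C0 * 4 ^ (e' 0 - e' (em j))) (xs (x (em j))) := fun j => by
          have := hmem j
          rw [hBad] at this
          simp only [Finset.mem_filter] at this
          exact this.2
        set g : Fin (n I + 1) → ℕ := Fin.cons 0 (fun j : Fin (n I) => em j.castSucc) with hgd
        have hg0 : g 0 = 0 := rfl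
        have hgs : ∀ j : Fin (n I), g j.succ = em j.castSucc := fun j => by
          rw [hgd, Fin.cons_succ]
        have hgm : StrictMono g := by
          rw [Fin.strictMono_iff_lt_succ]
          intro j
          rw [hgs]
          rcases Fin.eq_zero_or_eq_succ j.castSucc with h0 | ⟨j', h0⟩
          · rw [h0, hg0]
            exact (hB1 _).1
          · rw [h0, hgs]
            exact em.strictMono (Fin.castSucc_lt_succ)
        have hgl : ∀ j, g j < em (Fin.last _) := by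
          intro j
          rcases Fin.eq_zero_or_eq_succ j with h0 | ⟨j', h0⟩
          · rw [h0, hg0]
            exact (hB1 _).1
          · rw [h0, hgs]
            exact em.strictMono (Fin.castSucc_lt_last _)
        have hA := hAl (n I + 1) g (em (Fin.last _)) hgm hgl (hB1 _).2
        have hA' := hA.mono (hT _) ((min_le_left _ _).trans (hθ1' I)) le_rfl (hK13 I)
        have hgL : ∀ j, g j ≤ L := fun j => ((hgl j).trans_le (hB1 _).2).le
        have h0l : e' (em (Fin.last _)) < e' 0 :=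
          hanti _ _ (by have := (hB1 (Fin.last _)).1; omega) (hB1 _).2
        rcases h1 I _ _ _ _ (hT _) hA' (fun j => (hZev _ (hEx _ (hgL j)).2.1).2.2.1 I) with
          ⟨j, hj⟩ | hj
        · rcases Fin.eq_zero_or_eq_succ j with h0 | ⟨j', h0⟩
          · subst h0
            have h3 : C' I * ((4 : ℝ) ^ (e' (g 0) - e' (em (Fin.last _))) /
                4 ^ (e' (g 0) - e' (em (Fin.last _)))) = C' I := by
              rw [div_self (by positivity), mul_one]
            rw [h3] at hj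
            obtain ⟨p, hp0, hpd, -, hpe, hpA⟩ := hj
            have h4 := hN1 p hp0 (fun i => (hpd i).trans (hD0' I)) (hpA.trans (hC0' I))
            obtain ⟨q, hq⟩ := h4
            refine (hZev _ (hEx 0 (Nat.zero_le _)).2.1).1 ?_
            rw [hq, map_mul]
            rw [hg0] at hpe
            rw [hpe, zero_mul]
          · subst h0
            refine hB2 j'.castSucc ?_
            rw [hgs] at hj
            have h5 : e' (em (Fin.last _)) < e' (em j'.castSucc) :=
              hanti _ _ (em.strictMono (Fin.castSucc_lt_last _)) (hB1 _).2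
            have h6 : e' (em j'.castSucc) < e' 0 :=
              hanti _ _ (by have := (hB1 j'.castSucc).1; omega) (hB1 _).2
            have h7 : (4 : ℝ) ^ (e' (g 0) - e' (em (Fin.last _))) /
                4 ^ (e' (em j'.castSucc) - e' (em (Fin.last _))) =
                4 ^ (e' 0 - e' (em j'.castSucc)) := by
              rw [hg0, div_eq_iff (by positivity), ← pow_add]
              congr 1
              omega
            rw [h7] at hj
            refine (hLOR K σ _).1 _ _ _ _ _ _ subset_rfl (hD0' I) ?_ hj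
            exact mul_le_mul_of_nonneg_right (hC0' I) (by positivity)
        · refine hB2 (Fin.last _) ?_
          rw [hg0] at hj
          refine (hLOR K σ _).1 _ _ _ _ _ _ subset_rfl (hD0' I) ?_ hj
          exact mul_le_mul_of_nonneg_right (hC0' I) (by positivity)
      -- an index which is low for all I
      obtain ⟨l, hl1, hlL, hlow⟩ : ∃ l, 1 ≤ l ∧ l ≤ L ∧ ∀ I, l ∉ Bad I := by
        by_contra hno
        push Not at hno
        have h3 : Finset.Icc 1 L ⊆ Finset.univ.biUnion Bad := by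
          intro l hl
          rw [Finset.mem_Icc] at hl
          obtain ⟨I, hI⟩ := hno l hl.1 hl.2
          exact Finset.mem_biUnion.2 ⟨I, Finset.mem_univ _, hI⟩
        have h4 := (Finset.card_le_card h3).trans (Finset.card_biUnion_le.trans
          (Finset.sum_le_sum fun I _ => hcard I))
        rw [Nat.card_Icc] at h4
        omega
      have hlow' : ∀ I : Finset σ, I.card = (Fintype.card σ - s) + 1 →
          Lo I D0 (C0 * 4 ^ (e' 0 - e' l)) (xs (x l)) := by
        intro I hI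
        have h3 := hlow ⟨I, by omega⟩
        rw [hBad] at h3
        simp only [Finset.mem_filter, Finset.mem_Icc, not_and, not_not] at h3
        exact h3 ⟨hl1, hlL⟩
      obtain ⟨I0, hI0c, hI0, hI0i⟩ := (hLOR K σ (xs (x l))).2.2.2 _ D0 _ hlow'
      have hA := (hAl 1 (fun _ => 0) l (by
        intro a b hab
        exact absurd hab (by rw [Subsingleton.elim a b]; exact lt_irrefl _))
        (fun _ => hl1) hlL).mono (hT _) (min_le_right _ _) le_rfl hK12
      have h3 := h2 I0 _ _ _ _ (by omega) hA hI0 hI0i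
      obtain ⟨p, hp0, hpd, -, hpe, hpA⟩ := h3
      obtain ⟨q, hq⟩ := hN2 p hp0 hpd hpA
      refine (hZev _ (hEx 0 (Nat.zero_le _)).2.1).2.1 ?_
      rw [hq, map_mul, hpe, zero_mul])
  refine ⟨Z, D * (max R 0 + Fintype.card σ * c₀) + cB + ε * (Fintype.card σ * c₀), hZ0,
    by positivity, fun z hz hz0 hzZ => ?_⟩
  have hh1 : ∑ i, hx (z i) ≤ nrs H z + Fintype.card σ * c₀ := by
    have : ∑ i, hx (z i) ≤ ∑ i, (H i (z i) + c₀) := Finset.sum_le_sum fun i _ => by
      have := abs_le.1 ((hH i).near (z i))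
      linarith
    rw [Finset.sum_add_distrib, Finset.sum_const, Finset.card_univ, nsmul_eq_mul] at this
    exact this
  have hh2 : nrs H z ≤ ∑ i, hx (z i) + Fintype.card σ * c₀ := by
    have : nrs H z ≤ ∑ i, (hx (z i) + c₀) := Finset.sum_le_sum fun i _ => by
      have := abs_le.1 ((hH i).near (z i))
      linarith
    rw [Finset.sum_add_distrib, Finset.sum_const, Finset.card_univ, nsmul_eq_mul] at this
    exact this
  have hn0 : (0 : ℝ) ≤ Fintype.card σ * c₀ := by positivity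
  by_cases hE : ε * nrs H z ≤ cH D f (xs z)
  · have h3 : nrs H z ≤ R := hR z (by
      rw [AddSubgroup.mem_pi]
      exact fun i _ => hz i) ⟨hz0, hzZ, hE⟩
    have h4 := (hB (xs z) (hfne _ hzZ)).1
    have h5 : (D : ℝ) * ∑ i, logHeight₁ (xs z i) ≤ D * (max R 0 + Fintype.card σ * c₀) := by
      refine mul_le_mul_of_nonneg_left ?_ (Nat.cast_nonneg _)
      have e1 : ∑ i, logHeight₁ (xs z i) = ∑ i, hx (z i) := rfl
      rw [e1]
      linarith [le_max_left R 0]
    have h6 : 0 ≤ ε * ∑ i, hx (z i) := mul_nonneg hε.le (hxn z)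
    have h7 : 0 ≤ ε * (Fintype.card σ * c₀) := mul_nonneg hε.le hn0
    linarith
  · push Not at hE
    have h3 := mul_le_mul_of_nonneg_left hh2 hε.le
    have h4 : 0 ≤ (D : ℝ) * (max R 0 + Fintype.card σ * c₀) :=
      mul_nonneg (Nat.cast_nonneg _) (add_nonneg (le_max_right _ _) hn0)
    rw [mul_add] at h3
    linarith

end

end Pool.Agent.Helper60.HC
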